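import Pool.Agent.Q74.SF.Fin

/-! # Project SF: two trajectories, the arcsine law -/

set_option autoImplicit false

namespace Pool.Agent.Q74.SF

open Finset
open Pool.Agent.Q74.KP
open Pool.Agent.Q74.AR (oc oc_per bE bE_succ bE_mono bE_add bE_mul Td ocd)
open Pool.Agent.Q158.Pair (T)
open Pool.Agent.Q158.Col4 (cI)

theorem Td_one (t : ℕ) (x : ℤ) : (Td 1)^[t] x = T^[t] x := by
  have := Pool.Agent.Q74.AR.Td_iter (d := 1) (by norm_num) t x 0
  simpa using this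

theorem sum_fin_one {H : ℕ} (f : ℕ → ℝ) : ∑ h : Fin 1 → Fin H, f (h 0) = ∑ h ∈ range H, f h := by
  rw [← Fin.sum_univ_eq_sum_range]
  exact Fintype.sum_equiv (Equiv.funUnique (Fin 1) (Fin H)) _ _ (fun h => rfl)

/-- the pattern of two equal values -/
theorem pat_two {α : Type} (v : Fin 2 → α) [Decidable (v 0 = v 1)] :
    pat (fun _ : Fin 2 => (0 : Fin 2)) v = if v 0 = v 1 then 1 else 0 := by
  unfold pat
  by_cases h : v 0 = v 1
  · rw [if_pos h, if_pos]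
    intro i j
    fin_cases i <;> fin_cases j <;> simp [h]
  · rw [if_neg h, if_neg]
    intro h1
    exact h ((h1 0 1).2 rfl)

/-- two walkers: the arcsine law -/
theorem two_walkers (hF : S_Fix) (hM : S_Mark) (hB : S_Bad) (hP : S_Prod) (hC : S_Cont) (hI : S_CInj) (hCo : S_Comp)
    (hV : S_Conv) {ε : ℝ} (hε : 0 < ε) : ∃ t₀ : ℕ, ∀ t : ℕ, t₀ ≤ t → ∀ H : ℕ, 1 ≤ H →
      |FR (CG (fun z : Fin 2 → ℤ => if z 0 = z 1 then 1 else 0) (t - min t ⌊cI * Real.log H⌋₊))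
          (min t ⌊cI * Real.log H⌋₊) 0 -
        2 / Real.pi * Real.arccos (√(2 * Real.log H / (t * Real.log (4 / 3))))| ≤ ε := by
  obtain ⟨t₁, K₁, h1⟩ := flow hF hM hB hP hC hI hCo hV 1 (Λ := 0) le_rfl (show 0 < ε / 2 by positivity)
  obtain ⟨t₂, K₂, h2⟩ := Pool.Agent.Q74.AR.arcsine (show 0 < ε / 2 by positivity)
  refine ⟨t₁ + t₂, fun t ht H hH => ?_⟩
  set L : ℕ := (K₁ + K₂ + 1) * 2 ^ t with hL
  have h2t : 0 < 2 ^ t := by positivity
  have hL1 : 1 ≤ L := by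
    rw [hL]
    nlinarith
  have g1 := h1 t (by omega) H hH 1 (by norm_num) 1 0 (by norm_num) 0 L hL1 (Nat.mul_le_mul_right _ (by omega))
    (fun _ => 0) (fun _ => 1) (fun _ => by rw [abs_one]) (fun z w => by
      rw [sub_self, abs_zero]
      exact mul_nonneg (by positivity) (sum_nonneg fun i _ => abs_nonneg _))
  have g2 := h2 t H L (by omega) hH (Nat.mul_le_mul_right _ (by omega)) 0
  have e1 : (fun z : Fin 2 → ℤ => pat (fun _ : Fin 2 => (0 : Fin 2)) z * 1) =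
      fun z => if z 0 = z 1 then 1 else 0 := by
    funext z
    rw [mul_one, pat_two]
  have e2 : (∑ h : Fin 1 → Fin H, ∑ x ∈ Ico (0 : ℤ) (0 + L),
      pat (fun _ : Fin 2 => (0 : Fin 2)) (Vd 1 (fun _ => 0) (hb h) t (1 * x + 0)) * 1) =
      ∑ h ∈ range H, ({n : ℤ | 0 ≤ n ∧ n < 0 + L ∧ T^[t] n = T^[t] (n + h)}.ncard : ℝ) := by
    rw [← sum_fin_one (fun h => ({n : ℤ | 0 ≤ n ∧ n < 0 + L ∧ T^[t] n = T^[t] (n + h)}.ncard : ℝ))]
    apply sum_congr rfl
    intro h _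
    rw [Pool.Agent.Q158.Pair.ncard_eq (fun n : ℤ => T^[t] n = T^[t] (n + (h 0 : ℕ))), card_filter]
    push_cast
    apply sum_congr rfl
    intro x _
    rw [mul_one, pat_two]
    have e3 : Vd 1 (fun _ : Fin 2 => 0) (hb h) t (1 * x + 0) 0 = T^[t] x := by
      unfold Vd Yd hb hn
      rw [Td_one]
      simp
    have e4 : Vd 1 (fun _ : Fin 2 => 0) (hb h) t (1 * x + 0) 1 = T^[t] (x + (h 0 : ℕ)) := by
      unfold Vd Yd hb hn
      rw [Td_one]
      simp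
    rw [e3, e4]
  rw [e1, e2, pow_one, mul_comm (H : ℝ)] at g1
  have a1 := abs_le.1 g1
  have a2 := abs_le.1 g2
  rw [abs_le]
  constructor <;> linarith [a1.1, a1.2, a2.1, a2.2]

end Pool.Agent.Q74.SF
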