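import Pool.Agent.Q74.KP.Main
import Pool.Agent.Q74.KP.Free
import Pool.Agent.Q74.AR.Mid

/-! # Project SF (short intervals and the coalescing flow): definitions and the statements of the lemma jobs

`CG F t a` : expected value of `F` (positions) after `t` steps for coalescing walkers which start at the places `a`:
at each step, independently for the occupied places, all the walkers of a place stay (probability 1/2) or all
move one to the right.
`pat π v` : indicator of the event that the coincidences among the values of `v` are those of `π`.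
`Vv a b t n` : level and value of the `k` trajectories of `3 ^ a i * n + b i` at time `t` (3x+1 map `T`). -/

set_option autoImplicit false

namespace Pool.Agent.Q74.SF

open Finset
open Pool.Agent.Q74.KP
open Pool.Agent.Q74.AR (oc bE Td ocd)
open Pool.Agent.Q158.Pair (T)
open Pool.Agent.Q158.Col4 (cI)

/-- coalescing walkers -/
noncomputable def CG {k : ℕ} (F : (Fin k → ℤ) → ℝ) : ℕ → (Fin k → ℤ) → ℝ
  | 0 => F
  | t + 1 => fun a => (∑ B ∈ (univ.image a).powerset, CG F t (fun i => a i + if a i ∈ B then 1 else 0)) /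
      2 ^ (univ.image a).card

open Classical in
/-- the coincidences of `v` are those of `π` -/
noncomputable def pat {k : ℕ} {α : Type} (π : Fin k → Fin k) (v : Fin k → α) : ℝ :=
  if ∀ i j, v i = v j ↔ π i = π j then 1 else 0

/-- no crossing: whatever is between two equal values is equal to them; equal values are at the same place -/
def Good {k : ℕ} {α : Type} (v : Fin k → α) (z : Fin k → ℤ) : Prop :=
  ∀ i j l : Fin k, i ≤ l → l ≤ j → v i = v j → v l = v i ∧ z l = z i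

/-- level and value of the trajectories -/
def Vv {k : ℕ} (a : Fin k → ℕ) (b : Fin k → ℤ) (t : ℕ) (n : ℤ) : Fin k → ℤ × ℤ :=
  fun i => (Lv a b t n i, T^[t] (yy a b i n))

/-- the hypotheses on the offsets in the law of coalescence up to time `t` -/
def Off {k : ℕ} (ρ : ℝ) (t : ℕ) (a : Fin k → ℕ) (b : Fin k → ℤ) : Prop :=
  (∀ i j : Fin k, ((a j : ℝ) - a i) * Real.log t ≤ ρ * t) ∧
  (∀ i j : Fin k, a i ≤ a j → |(b j : ℝ) - 3 ^ (a j - a i) * b i| ≤ 3 ^ (a j - a i) * Real.exp (ρ * t))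

/-! ## JOB Comp, JOB Inj, JOB Mono: the coalescing walkers -/

/-- JOB Comp: some of the walkers (in any order, with repetitions) are again coalescing walkers -/
def S_Comp : Prop := ∀ (k k' : ℕ) (e : Fin k' → Fin k) (F : (Fin k' → ℤ) → ℝ) (t : ℕ) (a : Fin k → ℤ),
  CG (fun z => F (z ∘ e)) t a = CG F t (a ∘ e)

open Classical in
/-- JOB CInj: on the event that no two have met they are independent walkers (`NG` of KP/NC.lean) -/
def S_CInj : Prop := ∀ (k : ℕ) (g : (Fin k → ℤ) → ℝ) (t : ℕ) (a : Fin k → ℤ),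
  CG (fun z => if Function.Injective z then g z else 0) t a = NG g t a

/-- JOB CMono: coalescing walkers in weakly increasing order keep this order -/
def S_CMono : Prop := ∀ (k : ℕ) (F G : (Fin k → ℤ) → ℝ), (∀ z, Monotone z → F z = G z) →
  ∀ (t : ℕ) (a : Fin k → ℤ), Monotone a → CG F t a = CG G t a

/-! ## JOB Expand -/

open Classical in
/-- JOB Expand: for configurations without crossings every pattern with a function of the places is a combination
of functions of subfamilies of pairwise distinct ones -/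
def S_Expand : Prop := ∀ k : ℕ, ∃ (N : ℕ) (C : ℝ), 0 ≤ C ∧ ∀ (π : Fin k → Fin k) (G : (Fin k → ℤ) → ℝ),
  (∀ z, |G z| ≤ 1) →
  ∃ (m : Fin N → ℕ) (e : ∀ x : Fin N, Fin (m x) → Fin k) (g : ∀ x : Fin N, (Fin (m x) → ℤ) → ℝ),
    (∀ x, StrictMono (e x)) ∧ (∀ x z, |g x z| ≤ 1) ∧
    (∀ Λ : ℝ, 0 ≤ Λ → (∀ z w : Fin k → ℤ, |G z - G w| ≤ Λ * ∑ i, |(z i : ℝ) - w i|) →
      ∀ (x : Fin N) (z w : Fin (m x) → ℤ), |g x z - g x w| ≤ C * Λ * ∑ i, |(z i : ℝ) - w i|) ∧
    (∀ (α : Type) (v : Fin k → α) (z : Fin k → ℤ), Good v z →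
      pat π v * G z = ∑ x : Fin N, if Function.Injective (v ∘ e x) then g x (z ∘ e x) else 0)

/-! ## JOB Lip, JOB Cont: the coalescing walkers forget small changes of the start -/

/-- JOB Lip -/
def S_Lip : Prop := ∀ k : ℕ, ∃ C : ℝ, 0 < C ∧ ∀ (π : Fin k → Fin k) (G : (Fin k → ℤ) → ℝ), (∀ z, |G z| ≤ 1) →
  ∀ (r : ℕ) (a : Fin k → ℤ) (i : Fin k),
    |CG (fun z => pat π z * G z) r (a + Pi.single i 1) - CG (fun z => pat π z * G z) r a| ≤ C / √((r : ℝ) + 1)

/-- JOB Cont: free or coalescing for the first `j` steps makes no difference if `j` is small against `r` -/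
def S_Cont : Prop := ∀ k : ℕ, ∃ C : ℝ, 0 < C ∧ ∀ (π : Fin k → Fin k) (G : (Fin k → ℤ) → ℝ), (∀ z, |G z| ≤ 1) →
  ∀ (r j : ℕ) (a : Fin k → ℤ),
    |act k (PP k ^ j) (CG (fun z => pat π z * G z) r) a - CG (fun z => pat π z * G z) (j + r) a| ≤
      C * √((j : ℝ) + 1) / √((r : ℝ) + 1)

/-! ## JOB Sep, JOB Cross, JOB Fix: trajectories with fixed starting points (structural form) -/

open Classical in
/-- JOB Sep: structural form of `unsorted` (KP/Main.lean) -/
def S_Sep : Prop := ∀ (k : ℕ) (Λ ε : ℝ), 0 ≤ Λ → 0 < ε → ∃ ρ : ℝ, 0 < ρ ∧ ∃ t₀ : ℕ, ∀ t : ℕ, t₀ ≤ t →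
  ∀ (a : Fin k → ℕ) (b : Fin k → ℤ), Off ρ t a b → ∀ g : (Fin k → ℤ) → ℝ, (∀ z, |g z| ≤ 1) →
  (∀ z w : Fin k → ℤ, |g z - g w| ≤ Λ / √t * ∑ i, |(z i : ℝ) - w i|) →
  |EE t (fun n => if Function.Injective (Vv a b t n) then g (Lv a b t n) else 0) -
    NG g t (fun i => (a i : ℤ))| ≤ ε

open Classical in
/-- JOB Cross: structural form of `no_cross` (KP/Main.lean), `k` trajectories -/
def S_Cross : Prop := ∀ (k : ℕ) (ε : ℝ), 0 < ε → ∃ ρ : ℝ, 0 < ρ ∧ ∃ t₀ : ℕ, ∀ t : ℕ, t₀ ≤ t →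
  ∀ (a : Fin k → ℕ) (b : Fin k → ℤ), Monotone a → Off ρ t a b →
  EE t (fun n => if Good (Vv a b t n) (Lv a b t n) then 0 else 1) ≤ ε

/-- JOB Fix: the law of all coincidences and of the levels -/
def S_Fix : Prop := ∀ (k : ℕ) (Λ ε : ℝ), 0 ≤ Λ → 0 < ε → ∃ ρ : ℝ, 0 < ρ ∧ ∃ t₀ : ℕ, ∀ t : ℕ, t₀ ≤ t →
  ∀ (a : Fin k → ℕ) (b : Fin k → ℤ), Off ρ t a b →
  ∀ (π : Fin k → Fin k) (G : (Fin k → ℤ) → ℝ), (∀ z, |G z| ≤ 1) →
  (∀ z w : Fin k → ℤ, |G z - G w| ≤ Λ / √t * ∑ i, |(z i : ℝ) - w i|) →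
  |EE t (fun n => pat π (Vv a b t n) * G (Lv a b t n)) - CG (fun z => pat π z * G z) t (fun i => (a i : ℤ))| ≤ ε

/-! ## JOB Prod, JOB Mark, JOB Bad, JOB Conv -/

/-- JOB Prod: in short intervals the trajectories of `x` and of `k` random points are independent up to time
`(cI - η) log H` -/
def S_Prod : Prop := ∀ (k : ℕ) (η ε : ℝ), 0 < η → 0 < ε → ∃ H₀ : ℕ, 2 ≤ H₀ ∧ ∀ H : ℕ, H₀ ≤ H → ∀ m : ℕ,
  (m : ℝ) ≤ (cI - η) * Real.log H → ∀ F : (Fin (k + 1) → ℤ) → ℝ, (∀ z, |F z| ≤ 1) →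
  |(∑ h : Fin k → Fin H, EE m (fun x => F (Fin.cons (oc m x : ℤ) (fun i => (oc m (x + (h i : ℕ)) : ℤ))))) / (H : ℝ) ^ k -
    act (k + 1) (PP (k + 1) ^ m) F 0| ≤ ε

/-- JOB Mark: the first `m` steps and the remaining `r` steps (an exact identity) -/
def S_Mark : Prop := ∀ (k : ℕ) (Φ : (Fin k → ℤ × ℤ) → ℝ) (m r : ℕ) (a : Fin k → ℕ) (b : Fin k → ℤ),
  EE (m + r) (fun n => Φ (Vv a b (m + r) n)) =
    EE m (fun x => EE r (fun n => Φ (Vv (fun i => a i + oc m (yy a b i x)) (fun i => T^[m] (yy a b i x)) r n)))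

open Classical in
/-- JOB Bad: after `m` steps the offsets are small, with large probability -/
def S_Bad : Prop := ∀ (k : ℕ) (ρ κ ε : ℝ), 0 < ρ → 0 < κ → 0 < ε → ∃ δ : ℝ, 0 < δ ∧ ∃ m₀ : ℕ, ∀ m r : ℕ, m₀ ≤ m →
  κ * m ≤ r → ∀ H : ℕ, 1 ≤ H → cI * Real.log H ≤ (1 + δ) * m → ∀ h : Fin k → ℕ, (∀ i, h i < H) →
  EE m (fun x => if Off ρ r (fun i => oc m (x + (h i : ℕ))) (fun i => T^[m] (x + (h i : ℕ))) then 0 else 1) ≤ ε

/-- JOB Conv: from the structural average over a period to the map `Td d` in intervals and progressions -/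
def S_Conv : Prop := ∀ (k : ℕ) (d : ℤ), d % 2 = 1 → ∀ (u s : ℤ), u % 2 = 1 → ∀ (M : ℤ) (L t : ℕ)
  (a : Fin k → ℕ) (b : Fin k → ℤ) (π : Fin k → Fin k) (G : (Fin k → ℤ) → ℝ), (∀ z, |G z| ≤ 1) →
  |∑ x ∈ Ico M (M + L), pat π (Vd d a b t (u * x + s)) *
      G (fun i => (a i : ℤ) + ocd d t (Yd d a b i (u * x + s))) -
    EE t (fun n => pat π (Vv a b t n) * G (Lv a b t n)) * L| ≤ (2 + (k : ℝ) ^ 2) * 2 ^ t

/-! ## simple facts -/

variable {k : ℕ}

theorem pat_nonneg {α : Type} (π : Fin k → Fin k) (v : Fin k → α) : 0 ≤ pat π v := by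
  unfold pat; split_ifs <;> norm_num

theorem pat_le_one {α : Type} (π : Fin k → Fin k) (v : Fin k → α) : pat π v ≤ 1 := by
  unfold pat; split_ifs <;> norm_num

theorem pat_mul {α : Type} (π : Fin k → Fin k) (v : Fin k → α) {c : ℝ} (h : |c| ≤ 1) : |pat π v * c| ≤ 1 := by
  rw [abs_mul, abs_of_nonneg (pat_nonneg π v)]
  calc pat π v * |c| ≤ 1 * 1 := mul_le_mul (pat_le_one π v) h (abs_nonneg _) zero_le_one
    _ = 1 := one_mul 1

theorem CG_zero (F : (Fin k → ℤ) → ℝ) (a : Fin k → ℤ) : CG F 0 a = F a := rfl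

theorem CG_succ (F : (Fin k → ℤ) → ℝ) (t : ℕ) (a : Fin k → ℤ) : CG F (t + 1) a =
    (∑ B ∈ (univ.image a).powerset, CG F t (fun i => a i + if a i ∈ B then 1 else 0)) /
      2 ^ (univ.image a).card := rfl

theorem CG_mono {F G : (Fin k → ℤ) → ℝ} (h : ∀ z, F z ≤ G z) (t : ℕ) : ∀ a, CG F t a ≤ CG G t a := by
  induction t with
  | zero => exact h
  | succ t ih =>
    intro a
    rw [CG_succ, CG_succ]
    exact div_le_div_of_nonneg_right (sum_le_sum fun B _ => ih _) (by positivity)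

theorem CG_const (c : ℝ) (t : ℕ) : ∀ a : Fin k → ℤ, CG (fun _ => c) t a = c := by
  induction t with
  | zero => intro a; rfl
  | succ t ih =>
    intro a
    rw [CG_succ, sum_congr rfl (fun B _ => ih _), sum_const, card_powerset, nsmul_eq_mul]
    push_cast
    field_simp

theorem CG_add (F G : (Fin k → ℤ) → ℝ) (t : ℕ) : ∀ a, CG (fun z => F z + G z) t a = CG F t a + CG G t a := by
  induction t with
  | zero => intro a; rfl
  | succ t ih =>
    intro a
    rw [CG_succ, CG_succ, CG_succ, ← add_div, ← sum_add_distrib]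
    congr 1
    exact sum_congr rfl fun B _ => ih _

theorem CG_mul (c : ℝ) (F : (Fin k → ℤ) → ℝ) (t : ℕ) : ∀ a, CG (fun z => c * F z) t a = c * CG F t a := by
  induction t with
  | zero => intro a; rfl
  | succ t ih =>
    intro a
    rw [CG_succ, CG_succ, mul_div_assoc', mul_sum]
    congr 1
    exact sum_congr rfl fun B _ => ih _

theorem CG_sub (F G : (Fin k → ℤ) → ℝ) (t : ℕ) (a : Fin k → ℤ) :
    CG (fun z => F z - G z) t a = CG F t a - CG G t a := by
  have h := CG_add F (fun z => (-1) * G z) t a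
  rw [CG_mul] at h
  rw [sub_eq_add_neg, ← neg_one_mul, ← h]
  congr 1
  funext z
  ring

theorem CG_sum {ι : Type*} (s : Finset ι) (F : ι → (Fin k → ℤ) → ℝ) (t : ℕ) (a : Fin k → ℤ) :
    CG (fun z => ∑ x ∈ s, F x z) t a = ∑ x ∈ s, CG (F x) t a := by
  classical
  induction s using Finset.induction_on with
  | empty =>
    simp only [sum_empty]
    exact CG_const 0 t a
  | insert x s hx ih =>
    simp only [sum_insert hx]
    rw [CG_add, ih]

theorem CG_abs {F : (Fin k → ℤ) → ℝ} {K : ℝ} (h : ∀ z, |F z| ≤ K) (t : ℕ) (a : Fin k → ℤ) : |CG F t a| ≤ K := by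
  rw [abs_le]
  constructor
  · have := CG_mono (F := fun _ => -K) (fun z => (abs_le.1 (h z)).1) t a
    rwa [CG_const] at this
  · have := CG_mono (G := fun _ => K) (fun z => (abs_le.1 (h z)).2) t a
    rwa [CG_const] at this

theorem CG_time (F : (Fin k → ℤ) → ℝ) (r j : ℕ) : ∀ a, CG (CG F r) j a = CG F (j + r) a := by
  induction j with
  | zero => intro a; rw [Nat.zero_add]; rfl
  | succ j ih =>
    intro a
    rw [CG_succ, show j + 1 + r = (j + r) + 1 by ring, CG_succ]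
    congr 1
    exact sum_congr rfl fun B _ => ih _

end Pool.Agent.Q74.SF
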