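import Pool.Agent.Q74.SF.Two

/-! # Project SF: the final form -/

set_option autoImplicit false

namespace Pool.Agent.Q74.SF

open Finset
open Pool.Agent.Q74.KP
open Pool.Agent.Q74.AR (oc oc_per bE bE_succ bE_mono bE_add bE_mul Td ocd)
open Pool.Agent.Q158.Pair (T)
open Pool.Agent.Q158.Col4 (cI)

/-- the sample points: `u n + s` and `u n + s + d h_i` -/
def pt {k H : ℕ} (d u s n : ℤ) (h : Fin k → Fin H) (i : Fin (k + 1)) : ℤ :=
  u * n + s + d * ((Fin.cons 0 (fun j => (h j : ℕ)) : Fin (k + 1) → ℕ) i : ℕ)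

/-- the free time: `2 log H / log (4/3)`, but at most `t` -/
noncomputable def fr (t H : ℕ) : ℕ := min t ⌊2 * Real.log H / Real.log (4 / 3)⌋₊

theorem fr_eq (t H : ℕ) : fr t H = min t ⌊cI * Real.log H⌋₊ := by
  unfold fr cI
  rw [mul_div_right_comm]

theorem Vd_pt {k H : ℕ} (d u s n : ℤ) (h : Fin k → Fin H) (t : ℕ) (i : Fin (k + 1)) :
    Vd d (fun _ => 0) (hb h) t (u * n + s) i = (Td d)^[t] (pt d u s n h i) := by
  unfold Vd Yd hb hn pt
  rw [pow_zero, one_mul]

theorem Yd_pt {k H : ℕ} (d u s n : ℤ) (h : Fin k → Fin H) (i : Fin (k + 1)) :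
    Yd d (fun _ => 0) (hb h) i (u * n + s) = pt d u s n h i := by
  unfold Yd hb hn pt
  rw [pow_zero, one_mul]

open Classical in
theorem final (hF : S_Fix) (hM : S_Mark) (hB : S_Bad) (hP : S_Prod) (hC : S_Cont) (hI : S_CInj) (hCo : S_Comp)
    (hV : S_Conv) :
    (∀ (k : ℕ) (Λ ε : ℝ), 0 ≤ Λ → 0 < ε → ∃ t₀ K : ℕ, ∀ t : ℕ, t₀ ≤ t → ∀ H : ℕ, 1 ≤ H →
      ∀ d : ℤ, d % 2 = 1 → ∀ (u s : ℤ), u % 2 = 1 → ∀ (M : ℤ) (L : ℕ), 1 ≤ L → K * 2 ^ t ≤ L →
      -- the limit law of all coincidences and all places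
      (∀ (π : Fin (k + 1) → Fin (k + 1)) (G : (Fin (k + 1) → ℝ) → ℝ), (∀ x, |G x| ≤ 1) →
        (∀ x y, |G x - G y| ≤ Λ * ∑ i, |x i - y i|) →
        |(∑ h : Fin k → Fin H, ∑ n ∈ Ico M (M + L),
            (if ∀ i j, (Td d)^[t] (pt d u s n h i) = (Td d)^[t] (pt d u s n h j) ↔ π i = π j then
              G (fun i => (ocd d t (pt d u s n h i) - t / 2) / √t) else 0)) / ((H : ℝ) ^ k * L) -
          FR (CG (fun z => if ∀ i j, z i = z j ↔ π i = π j then G (fun i => (z i - t / 2) / √t) else 0)
            (t - fr t H)) (fr t H) 0| ≤ ε) ∧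
      -- invariant functions
      (∀ F : ℤ → ℕ, (∀ x, F (Td d x) = F x) →
        (∑ h : Fin k → Fin H, ({n : ℤ | M ≤ n ∧ n < M + L ∧
            Function.Injective (fun i => F (pt d u s n h i))}.ncard : ℝ)) / ((H : ℝ) ^ k * L) ≤
          FR (CG (fun z : Fin (k + 1) → ℤ => if Function.Injective z then 1 else 0) (t - fr t H)) (fr t H) 0 + ε)) ∧
    -- two walkers
    (∀ ε : ℝ, 0 < ε → ∃ t₀ : ℕ, ∀ t : ℕ, t₀ ≤ t → ∀ H : ℕ, 1 ≤ H →
      |FR (CG (fun z : Fin 2 → ℤ => if z 0 = z 1 then 1 else 0) (t - fr t H)) (fr t H) 0 -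
        2 / Real.pi * Real.arccos (√(2 * Real.log H / (t * Real.log (4 / 3))))| ≤ ε) := by
  refine ⟨fun k Λ ε hΛ hε => ?_, fun ε hε => ?_⟩
  · obtain ⟨t₀, K, h0⟩ := flow hF hM hB hP hC hI hCo hV k hΛ hε
    refine ⟨t₀ + 1, K, fun t ht H hH d hd u s hu M L hL1 hL => ?_⟩
    have ht0 : (0 : ℝ) < t := by
      have : 0 < t := by omega
      exact_mod_cast this
    have hst : 0 < √(t : ℝ) := Real.sqrt_pos.2 ht0
    have key : ∀ (π : Fin (k + 1) → Fin (k + 1)) (G : (Fin (k + 1) → ℝ) → ℝ), (∀ x, |G x| ≤ 1) →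
        (∀ x y, |G x - G y| ≤ Λ * ∑ i, |x i - y i|) →
        |(∑ h : Fin k → Fin H, ∑ n ∈ Ico M (M + L),
            (if ∀ i j, (Td d)^[t] (pt d u s n h i) = (Td d)^[t] (pt d u s n h j) ↔ π i = π j then
              G (fun i => (ocd d t (pt d u s n h i) - t / 2) / √t) else 0)) / ((H : ℝ) ^ k * L) -
          FR (CG (fun z => if ∀ i j, z i = z j ↔ π i = π j then G (fun i => (z i - t / 2) / √t) else 0)
            (t - fr t H)) (fr t H) 0| ≤ ε := by
      intro π G hG hGL
      have h1 := h0 t (by omega) H hH d hd u s hu M L hL1 hL π (fun z => G (fun i => (z i - t / 2) / √t))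
        (fun z => hG _) (fun z w => by
          refine (hGL _ _).trans (le_of_eq ?_)
          rw [div_mul_eq_mul_div, mul_div_assoc, sum_div]
          congr 1
          apply sum_congr rfl
          intro i _
          rw [← sub_div, abs_div, abs_of_pos hst]
          congr 2
          ring)
      rw [← fr_eq] at h1
      refine le_trans (le_of_eq ?_) h1
      congr 3
      · apply sum_congr rfl
        intro h _
        apply sum_congr rfl
        intro n _
        have e1 : pat π (Vd d (fun _ => 0) (hb h) t (u * n + s)) =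
            if ∀ i j, (Td d)^[t] (pt d u s n h i) = (Td d)^[t] (pt d u s n h j) ↔ π i = π j then 1 else 0 := by
          unfold pat
          simp only [Vd_pt]
        rw [e1, ite_mul, one_mul, zero_mul]
        simp only [Yd_pt]
        push_cast
        rfl
      · congr 1
        funext z
        unfold pat
        rw [ite_mul, one_mul, zero_mul]
        split_ifs <;> rfl
    refine ⟨key, fun F hFi => ?_⟩
    have h1 := (abs_le.1 (key id (fun _ => 1) (fun _ => by rw [abs_one]) (fun x y => by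
      rw [sub_self, abs_zero]
      exact mul_nonneg hΛ (sum_nonneg fun i _ => abs_nonneg _)))).2
    have hiter : ∀ (m : ℕ) (x : ℤ), F ((Td d)^[m] x) = F x := by
      intro m
      induction m with
      | zero => intro x; rfl
      | succ m ih =>
        intro x
        rw [Function.iterate_succ_apply, ih, hFi]
    have e2 : (fun z : Fin (k + 1) → ℤ => if ∀ i j, z i = z j ↔ id i = id j then (1 : ℝ) else 0) =
        fun z => if Function.Injective z then 1 else 0 := by
      funext z
      by_cases hz : Function.Injective z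
      · rw [if_pos hz, if_pos]
        intro i j
        exact hz.eq_iff
      · rw [if_neg hz, if_neg]
        intro h
        exact hz fun i j hij => (h i j).1 hij
    rw [e2] at h1
    have h2 : (∑ h : Fin k → Fin H, ({n : ℤ | M ≤ n ∧ n < M + L ∧
            Function.Injective (fun i => F (pt d u s n h i))}.ncard : ℝ)) / ((H : ℝ) ^ k * L) ≤
        (∑ h : Fin k → Fin H, ∑ n ∈ Ico M (M + L),
            (if ∀ i j, (Td d)^[t] (pt d u s n h i) = (Td d)^[t] (pt d u s n h j) ↔ id i = id j then
              (1 : ℝ) else 0)) / ((H : ℝ) ^ k * L) := by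
      apply div_le_div_of_nonneg_right _ (by positivity)
      apply sum_le_sum
      intro h _
      rw [Pool.Agent.Q158.Pair.ncard_eq (fun n : ℤ => Function.Injective (fun i => F (pt d u s n h i))), card_filter]
      push_cast
      apply sum_le_sum
      intro n _
      by_cases hn : Function.Injective (fun i => F (pt d u s n h i))
      · rw [if_pos hn, if_pos]
        intro i j
        constructor
        · intro hij
          apply hn
          show F (pt d u s n h i) = F (pt d u s n h j)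
          rw [← hiter t (pt d u s n h i), hij, hiter]
        · intro hij
          have hij' : i = j := hij
          rw [hij']
      · rw [if_neg hn]
        split_ifs <;> norm_num
    linarith
  · obtain ⟨t₀, h0⟩ := two_walkers hF hM hB hP hC hI hCo hV hε
    refine ⟨t₀, fun t ht H hH => ?_⟩
    have h1 := h0 t ht H hH
    rw [← fr_eq] at h1
    exact h1

end Pool.Agent.Q74.SF
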