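import Pool.Agent.Q74.SF.Def

/-! # Project SF: assembly, the middle range -/

set_option autoImplicit false

namespace Pool.Agent.Q74.SF

open Finset
open Pool.Agent.Q74.KP
open Pool.Agent.Q74.AR (oc bE Td ocd)
open Pool.Agent.Q158.Pair (T)
open Pool.Agent.Q158.Col4 (cI)

variable {k : ℕ}

/-- the distances of the sample points: `0` and `h 0, ..., h (k - 1)` -/
def hn {H : ℕ} (h : Fin k → Fin H) : Fin (k + 1) → ℕ := Fin.cons 0 (fun i => (h i : ℕ))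

/-- the same as integers -/
def hb {H : ℕ} (h : Fin k → Fin H) : Fin (k + 1) → ℤ := fun i => ((hn h i : ℕ) : ℤ)

/-- coincidences and places -/
noncomputable def Ph {k : ℕ} (π : Fin k → Fin k) (G : (Fin k → ℤ) → ℝ) (V : Fin k → ℤ × ℤ) : ℝ :=
  pat π V * G (fun i => (V i).1)

/-- the same for walkers -/
noncomputable def Fm {k : ℕ} (π : Fin k → Fin k) (G : (Fin k → ℤ) → ℝ) (z : Fin k → ℤ) : ℝ := pat π z * G z

/-- average over the sample points -/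
noncomputable def Av (k H t : ℕ) (Φ : (Fin (k + 1) → ℤ × ℤ) → ℝ) : ℝ :=
  (∑ h : Fin k → Fin H, EE t (fun n => Φ (Vv (fun _ => 0) (hb h) t n))) / (H : ℝ) ^ k

/-- the walkers: free for `m` steps, coalescing for `r` steps -/
noncomputable def Wm {k : ℕ} (F : (Fin (k + 1) → ℤ) → ℝ) (m r : ℕ) : ℝ := act (k + 1) (PP (k + 1) ^ m) (CG F r) 0

theorem hn_lt {H : ℕ} (hH : 1 ≤ H) (h : Fin k → Fin H) (i : Fin (k + 1)) : hn h i < H := by
  refine Fin.cases ?_ (fun j => ?_) i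
  · exact hH
  · exact (h j).2

theorem yy_zero (b : Fin k → ℤ) (i : Fin k) (x : ℤ) : yy (fun _ => 0) b i x = x + b i := by
  unfold yy
  rw [pow_zero, one_mul]

theorem cons_oc {H : ℕ} (h : Fin k → Fin H) (m : ℕ) (x : ℤ) :
    (fun i => ((oc m (x + (hn h i : ℕ)) : ℕ) : ℤ)) =
      (Fin.cons (oc m x : ℤ) (fun i => (oc m (x + (h i : ℕ)) : ℤ)) : Fin (k + 1) → ℤ) := by
  funext i
  refine Fin.cases ?_ (fun j => ?_) i
  · simp [hn]
  · simp [hn]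

theorem Ph_abs (π : Fin k → Fin k) {G : (Fin k → ℤ) → ℝ} (hG : ∀ z, |G z| ≤ 1) (V : Fin k → ℤ × ℤ) :
    |Ph π G V| ≤ 1 := pat_mul π V (hG _)

theorem Fm_abs (π : Fin k → Fin k) {G : (Fin k → ℤ) → ℝ} (hG : ∀ z, |G z| ≤ 1) (z : Fin k → ℤ) :
    |Fm π G z| ≤ 1 := pat_mul π z (hG _)

theorem act_abs (t : ℕ) {F : (Fin k → ℤ) → ℝ} {K : ℝ} (h : ∀ z, |F z| ≤ K) (a : Fin k → ℤ) :
    |act k (PP k ^ t) F a| ≤ K := by
  have := Bd_PP (k := k) t F K h a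
  rwa [one_mul] at this

theorem act_sub' (t : ℕ) (F G : (Fin k → ℤ) → ℝ) (a : Fin k → ℤ) :
    act k (PP k ^ t) (fun z => F z - G z) a = act k (PP k ^ t) F a - act k (PP k ^ t) G a := by
  have : (fun z => F z - G z) = F - G := rfl
  rw [this, map_sub]
  rfl

/-- average of a bounded quantity over the sample points -/
theorem avg_le {H : ℕ} (hH : 1 ≤ H) {f : (Fin k → Fin H) → ℝ} {K : ℝ} (h : ∀ x, f x ≤ K) :
    (∑ x, f x) / (H : ℝ) ^ k ≤ K := by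
  have hH0 : (0 : ℝ) < (H : ℝ) ^ k := by
    have : (0 : ℝ) < H := by exact_mod_cast hH
    positivity
  rw [div_le_iff₀ hH0]
  refine (sum_le_card_nsmul univ f K fun x _ => h x).trans (le_of_eq ?_)
  rw [card_univ, Fintype.card_fun, Fintype.card_fin, Fintype.card_fin, nsmul_eq_mul]
  push_cast
  ring

theorem avg_sub_le {H : ℕ} (hH : 1 ≤ H) {f g : (Fin k → Fin H) → ℝ} {K : ℝ} (h : ∀ x, |f x - g x| ≤ K) :
    |(∑ x, f x) / (H : ℝ) ^ k - (∑ x, g x) / (H : ℝ) ^ k| ≤ K := by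
  rw [← sub_div, ← sum_sub_distrib, abs_div, abs_of_nonneg (by positivity : (0 : ℝ) ≤ (H : ℝ) ^ k)]
  refine le_trans (div_le_div_of_nonneg_right (abs_sum_le_sum_abs _ _) (by positivity)) ?_
  exact avg_le hH h

open Classical in
/-- the first `m` steps are given: compare with the coalescing walkers -/
theorem one_h (hM : S_Mark) {H : ℕ} (h : Fin k → Fin H) (π : Fin (k + 1) → Fin (k + 1))
    {G : (Fin (k + 1) → ℤ) → ℝ} (hG : ∀ z, |G z| ≤ 1) (m r : ℕ) {ρ ε : ℝ} (hε : 0 ≤ ε)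
    (hfix : ∀ (a : Fin (k + 1) → ℕ) (b : Fin (k + 1) → ℤ), Off ρ r a b →
      |EE r (fun n => Ph π G (Vv a b r n)) - CG (Fm π G) r (fun i => (a i : ℤ))| ≤ ε) :
    |EE (m + r) (fun n => Ph π G (Vv (fun _ => 0) (hb h) (m + r) n)) -
      EE m (fun x => CG (Fm π G) r (Fin.cons (oc m x : ℤ) (fun i => (oc m (x + (h i : ℕ)) : ℤ))))| ≤
    ε + 2 * EE m (fun x => if Off ρ r (fun i => oc m (x + (hn h i : ℕ))) (fun i => T^[m] (x + (hn h i : ℕ)))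
      then 0 else 1) := by
  rw [hM, ← EE_sub]
  refine (EE_abs _ _).trans ?_
  have key : ∀ x : ℤ, |EE r (fun n => Ph π G (Vv (fun i => 0 + oc m (yy (fun _ => 0) (hb h) i x))
        (fun i => T^[m] (yy (fun _ => 0) (hb h) i x)) r n)) -
      CG (Fm π G) r (Fin.cons (oc m x : ℤ) (fun i => (oc m (x + (h i : ℕ)) : ℤ)))| ≤
      ε + 2 * (if Off ρ r (fun i => oc m (x + (hn h i : ℕ))) (fun i => T^[m] (x + (hn h i : ℕ))) then 0 else 1) := by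
    intro x
    have e1 : (fun i => 0 + oc m (yy (fun _ => 0) (hb h) i x)) = fun i => oc m (x + (hn h i : ℕ)) := by
      funext i
      rw [yy_zero, Nat.zero_add]
      rfl
    have e2 : (fun i => T^[m] (yy (fun _ => 0) (hb h) i x)) = fun i => T^[m] (x + (hn h i : ℕ)) := by
      funext i
      rw [yy_zero]
      rfl
    rw [e1, e2, ← cons_oc h m x]
    split_ifs with hO
    · rw [mul_zero, add_zero]
      exact hfix _ _ hO
    · have h1 := EE_bd r (fun n => Ph_abs π hG (Vv (fun i => oc m (x + (hn h i : ℕ)))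
        (fun i => T^[m] (x + (hn h i : ℕ))) r n))
      have h2 := CG_abs (Fm_abs π hG) r (fun i => ((oc m (x + (hn h i : ℕ)) : ℕ) : ℤ))
      refine (abs_sub _ _).trans ?_
      linarith
  refine (EE_mono m key).trans ?_
  rw [EE_add, EE_const, EE_mul]

/-- the middle range, with the free time `m` a little too short -/
theorem mid_pre (hF : S_Fix) (hM : S_Mark) (hB : S_Bad) (hP : S_Prod) (k : ℕ) {Λ κ ε : ℝ} (hΛ : 0 ≤ Λ) (hκ : 0 < κ)
    (hε : 0 < ε) : ∃ δ : ℝ, 0 < δ ∧ ∀ η : ℝ, 0 < η → ∃ m₀ : ℕ, ∀ m r : ℕ, m₀ ≤ m → κ * m ≤ r →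
      ∀ H : ℕ, 1 ≤ H → cI * Real.log H ≤ (1 + δ) * m → (m : ℝ) ≤ (cI - η) * Real.log H →
      ∀ (π : Fin (k + 1) → Fin (k + 1)) (G : (Fin (k + 1) → ℤ) → ℝ), (∀ z, |G z| ≤ 1) →
      (∀ z w : Fin (k + 1) → ℤ, |G z - G w| ≤ Λ / √(r : ℝ) * ∑ i, |(z i : ℝ) - w i|) →
      |Av k H (m + r) (Ph π G) - Wm (Fm π G) m r| ≤ ε := by
  obtain ⟨ρ, hρ, t₀, hfix⟩ := hF (k + 1) Λ (ε / 4) hΛ (by positivity)
  obtain ⟨δ, hδ, m₁, hbad⟩ := hB (k + 1) ρ κ (ε / 8) hρ hκ (by positivity)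
  refine ⟨δ, hδ, fun η hη => ?_⟩
  obtain ⟨H₀, hH₀, hprod⟩ := hP k η (ε / 4) hη (by positivity)
  -- large m forces large H
  have hlogH : ∃ m₂ : ℕ, ∀ m H : ℕ, m₂ ≤ m → 1 ≤ H → (m : ℝ) ≤ (cI - η) * Real.log H → H₀ ≤ H := by
    obtain ⟨m₂, hm₂⟩ := exists_nat_gt (|cI - η| * Real.log H₀)
    refine ⟨m₂, fun m H hm hH h => ?_⟩
    by_contra hc
    push Not at hc
    have h1 : Real.log H ≤ Real.log H₀ := Real.log_le_log (by exact_mod_cast hH) (by exact_mod_cast hc.le)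
    have h0 : 0 ≤ Real.log H := Real.log_nonneg (by exact_mod_cast hH)
    have h2 : (cI - η) * Real.log H ≤ |cI - η| * Real.log H₀ :=
      (mul_le_mul_of_nonneg_right (le_abs_self _) h0).trans (mul_le_mul_of_nonneg_left h1 (abs_nonneg _))
    have h3 : (m₂ : ℝ) ≤ m := by exact_mod_cast hm
    linarith
  obtain ⟨m₂, hm₂⟩ := hlogH
  obtain ⟨m₃, hm₃⟩ := exists_nat_ge ((t₀ : ℝ) / κ)
  refine ⟨max m₁ (max m₂ m₃), fun m r hm hr H hH hH1 hH2 π G hG hGL => ?_⟩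
  have hm1 : m₁ ≤ m := le_trans (le_max_left _ _) hm
  have hm2 : m₂ ≤ m := le_trans (le_trans (le_max_left _ _) (le_max_right _ _)) hm
  have hm3 : m₃ ≤ m := le_trans (le_trans (le_max_right _ _) (le_max_right _ _)) hm
  have hrt : t₀ ≤ r := by
    have h1 : (t₀ : ℝ) / κ ≤ m := hm₃.trans (by exact_mod_cast hm3)
    rw [div_le_iff₀ hκ] at h1
    have : (t₀ : ℝ) ≤ r := by linarith
    exact_mod_cast this
  have h1 : ∀ h : Fin k → Fin H, |EE (m + r) (fun n => Ph π G (Vv (fun _ => 0) (hb h) (m + r) n)) -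
      EE m (fun x => CG (Fm π G) r (Fin.cons (oc m x : ℤ) (fun i => (oc m (x + (h i : ℕ)) : ℤ))))| ≤ ε / 2 := by
    intro h
    refine (one_h hM h π hG m r (ρ := ρ) (ε := ε / 4) (by positivity)
      (fun a b hO => hfix r hrt a b hO π G hG hGL)).trans ?_
    have := hbad m r hm1 hr H hH hH1 (hn h) (hn_lt hH h)
    linarith
  have h2 := avg_sub_le hH h1
  have h3 := hprod H (hm₂ m H hm2 hH hH2) m hH2 (CG (Fm π G) r) (fun z => CG_abs (Fm_abs π hG) r z)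
  have h4 := abs_sub_le (Av k H (m + r) (Ph π G))
    ((∑ h : Fin k → Fin H, EE m (fun x => CG (Fm π G) r (Fin.cons (oc m x : ℤ) (fun i => (oc m (x + (h i : ℕ)) : ℤ))))) /
      (H : ℝ) ^ k) (Wm (Fm π G) m r)
  unfold Av Wm at *
  linarith

/-- free or coalescing for `j` steps -/
theorem Wm_cont (hC : S_Cont) (k : ℕ) : ∃ C : ℝ, 0 < C ∧ ∀ (π : Fin (k + 1) → Fin (k + 1)) (G : (Fin (k + 1) → ℤ) → ℝ),
    (∀ z, |G z| ≤ 1) → ∀ m j r : ℕ,
    |Wm (Fm π G) (m + j) r - Wm (Fm π G) m (j + r)| ≤ C * √((j : ℝ) + 1) / √((r : ℝ) + 1) := by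
  obtain ⟨C, hC0, h⟩ := hC (k + 1)
  refine ⟨C, hC0, fun π G hG m j r => ?_⟩
  unfold Wm
  rw [pow_add, act_mul, ← act_sub']
  exact act_abs m (fun z => h π G hG r j z) 0

theorem cI_pos : 0 < cI := by
  unfold cI
  have : 0 < Real.log (4 / 3) := Real.log_pos (by norm_num)
  positivity

/-- the middle range -/
theorem mid (hF : S_Fix) (hM : S_Mark) (hB : S_Bad) (hP : S_Prod) (hC : S_Cont) (k : ℕ) {Λ κ₁ κ₂ ε : ℝ}
    (hΛ : 0 ≤ Λ) (hκ₁ : 0 < κ₁) (hκ₂ : 0 < κ₂) (hκ₂' : κ₂ < 1) (hε : 0 < ε) : ∃ t₀ : ℕ, ∀ t : ℕ, t₀ ≤ t → ∀ H : ℕ, 1 ≤ H →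
      κ₁ * t ≤ cI * Real.log H → cI * Real.log H ≤ (1 - κ₂) * t →
      ∀ (π : Fin (k + 1) → Fin (k + 1)) (G : (Fin (k + 1) → ℤ) → ℝ), (∀ z, |G z| ≤ 1) →
      (∀ z w : Fin (k + 1) → ℤ, |G z - G w| ≤ Λ / √(t : ℝ) * ∑ i, |(z i : ℝ) - w i|) →
      |Av k H t (Ph π G) - Wm (Fm π G) ⌊cI * Real.log H⌋₊ (t - ⌊cI * Real.log H⌋₊)| ≤ ε := by
  obtain ⟨δ, hδ, hpre⟩ := mid_pre hF hM hB hP k hΛ hκ₂ (show 0 < ε / 2 by positivity)
  obtain ⟨C, hC0, hcont⟩ := Wm_cont hC k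
  -- the fraction `κ₃` of the free time which is given away
  obtain ⟨κ₃, hκ₃, hκ₃1, hκ₃2, hκ₃3⟩ : ∃ κ₃ : ℝ, 0 < κ₃ ∧ κ₃ < 1 / 2 ∧ 2 * κ₃ ≤ δ / 2 ∧
      4 * C ^ 2 * κ₃ ≤ κ₂ * (ε / 2) ^ 2 / 2 := by
    refine ⟨min (1 / 4) (min (δ / 4) (κ₂ * (ε / 2) ^ 2 / 2 / (4 * C ^ 2))), by positivity, ?_, ?_, ?_⟩
    · exact lt_of_le_of_lt (min_le_left _ _) (by norm_num)
    · have := (min_le_right (1 / 4) (min (δ / 4) (κ₂ * (ε / 2) ^ 2 / 2 / (4 * C ^ 2)))).trans (min_le_left _ _)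
      linarith
    · have := (min_le_right (1 / 4) (min (δ / 4) (κ₂ * (ε / 2) ^ 2 / 2 / (4 * C ^ 2)))).trans (min_le_right _ _)
      rw [le_div_iff₀ (by positivity)] at this
      linarith
  obtain ⟨m₀, hm₀⟩ := hpre (κ₃ * cI) (mul_pos hκ₃ cI_pos)
  -- how large `t` must be
  obtain ⟨t₁, ht₁⟩ := exists_nat_ge (((m₀ : ℝ) + 2 + (4 + 2 * δ) / δ + (8 * C ^ 2) / (κ₂ * (ε / 2) ^ 2)) / (κ₁ * (1 - κ₃)) +
    (16 * C ^ 2) / (κ₂ * (ε / 2) ^ 2 * κ₂))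
  refine ⟨t₁ + 1, fun t ht H hH hH1 hH2 π G hG hGL => ?_⟩
  have htr : (t₁ : ℝ) ≤ t := by exact_mod_cast (by omega : t₁ ≤ t)
  have ht0 : (0 : ℝ) < t := by
    have : 0 < t := by omega
    exact_mod_cast this
  set X := cI * Real.log H with hX
  have hX0 : 0 < X := lt_of_lt_of_le (by positivity) hH1
  -- lower bounds for t
  have hbig : (m₀ : ℝ) + 2 + (4 + 2 * δ) / δ + (8 * C ^ 2) / (κ₂ * (ε / 2) ^ 2) ≤ (1 - κ₃) * X := by
    have h1 : ((m₀ : ℝ) + 2 + (4 + 2 * δ) / δ + (8 * C ^ 2) / (κ₂ * (ε / 2) ^ 2)) / (κ₁ * (1 - κ₃)) ≤ t := by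
      have : 0 ≤ (16 * C ^ 2) / (κ₂ * (ε / 2) ^ 2 * κ₂) := by positivity
      linarith
    have h13 : 0 < 1 - κ₃ := by linarith
    rw [div_le_iff₀ (by positivity)] at h1
    calc _ ≤ (t : ℝ) * (κ₁ * (1 - κ₃)) := h1
      _ = (1 - κ₃) * (κ₁ * t) := by ring
      _ ≤ (1 - κ₃) * X := mul_le_mul_of_nonneg_left hH1 h13.le
  have hterm1 : 0 ≤ (4 + 2 * δ) / δ := by positivity
  have hterm2 : 0 ≤ (8 * C ^ 2) / (κ₂ * (ε / 2) ^ 2) := by positivity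
  set m := ⌊(1 - κ₃) * X⌋₊ with hm
  have hm1 : (m : ℝ) ≤ (1 - κ₃) * X := Nat.floor_le (by nlinarith)
  have hm2 : (1 - κ₃) * X < m + 1 := Nat.lt_floor_add_one _
  set m' := ⌊X⌋₊ with hm'
  have hm'1 : (m' : ℝ) ≤ X := Nat.floor_le hX0.le
  have hmm' : m ≤ m' := Nat.floor_le_floor (by nlinarith)
  have hm't : m' ≤ t := by
    have : (m' : ℝ) ≤ t := by nlinarith
    exact_mod_cast this
  have hm0 : m₀ ≤ m := by
    have : (m₀ : ℝ) < m + 1 := by linarith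
    have : m₀ < m + 1 := by exact_mod_cast this
    omega
  have hmt : m ≤ t := hmm'.trans hm't
  -- apply the preliminary form at `m`, `r = t - m`
  have hr : ((t - m : ℕ) : ℝ) = t - m := Nat.cast_sub hmt
  have hκr : κ₂ * m ≤ ((t - m : ℕ) : ℝ) := by
    rw [hr]
    have h1 : (m : ℝ) ≤ (1 - κ₂) * t := by
      have : (1 - κ₃) * X ≤ X := by nlinarith
      linarith
    have h2 : κ₂ * (m : ℝ) ≤ κ₂ * t := mul_le_mul_of_nonneg_left (by exact_mod_cast hmt) hκ₂.le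
    linarith
  have hA : X ≤ (1 + δ) * m := by
    -- (1 - κ₃) X < m + 1, m ≥ (4 + 2 δ) / δ
    have h1 : (4 + 2 * δ) / δ ≤ (m : ℝ) := by
      have : (0 : ℝ) ≤ m₀ := Nat.cast_nonneg _
      linarith
    rw [div_le_iff₀ hδ] at h1
    have h2 : X ≤ (1 + 2 * κ₃) * (m + 1) := by
      have h3 : (1 + 2 * κ₃) * ((1 - κ₃) * X) ≤ (1 + 2 * κ₃) * (m + 1) :=
        mul_le_mul_of_nonneg_left hm2.le (by linarith)
      have h4 : X ≤ (1 + 2 * κ₃) * ((1 - κ₃) * X) := by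
        have : 0 ≤ κ₃ * (1 - 2 * κ₃) * X := by
          have : 0 ≤ 1 - 2 * κ₃ := by linarith
          positivity
        nlinarith
      linarith
    have h5 : (1 + 2 * κ₃) * ((m : ℝ) + 1) ≤ (1 + δ / 2) * (m + 1) :=
      mul_le_mul_of_nonneg_right (by linarith) (by positivity)
    nlinarith
  have hB' : (m : ℝ) ≤ (cI - κ₃ * cI) * Real.log H := by
    have : (cI - κ₃ * cI) * Real.log H = (1 - κ₃) * X := by rw [hX]; ring
    rw [this]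
    exact hm1
  have hL1 : ∀ z w : Fin (k + 1) → ℤ, |G z - G w| ≤ Λ / √(((t - m : ℕ) : ℝ)) * ∑ i, |(z i : ℝ) - w i| := by
    intro z w
    refine (hGL z w).trans ?_
    apply mul_le_mul_of_nonneg_right _ (sum_nonneg fun i _ => abs_nonneg _)
    apply div_le_div_of_nonneg_left hΛ
    · apply Real.sqrt_pos.2
      rw [hr]
      have : (m : ℝ) ≤ (1 - κ₂) * t := by
        have : (1 - κ₃) * X ≤ X := by nlinarith
        linarith
      nlinarith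
    · apply Real.sqrt_le_sqrt
      rw [hr]
      have : (0 : ℝ) ≤ m := Nat.cast_nonneg _
      linarith
  have h1 := hm₀ m (t - m) hm0 hκr H hH hA hB' π G hG hL1
  rw [Nat.add_sub_cancel' hmt] at h1
  -- change `m` to `m'`
  have h2 := hcont π G hG m (m' - m) (t - m')
  rw [Nat.add_sub_cancel' hmm', show m' - m + (t - m') = t - m by omega] at h2
  have h3 : C * √(((m' - m : ℕ) : ℝ) + 1) / √(((t - m' : ℕ) : ℝ) + 1) ≤ ε / 2 := by
    have hj : ((m' - m : ℕ) : ℝ) + 1 ≤ κ₃ * t + 2 := by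
      rw [Nat.cast_sub hmm']
      have : X ≤ t := by nlinarith
      nlinarith
    have hrr : κ₂ * t ≤ ((t - m' : ℕ) : ℝ) + 1 := by
      rw [Nat.cast_sub hm't]
      linarith
    have hpos : 0 < ((t - m' : ℕ) : ℝ) + 1 := by positivity
    rw [div_le_iff₀ (Real.sqrt_pos.2 hpos)]
    have h4 : C ^ 2 * (((m' - m : ℕ) : ℝ) + 1) ≤ (ε / 2) ^ 2 * (((t - m' : ℕ) : ℝ) + 1) := by
      have h5 : C ^ 2 * (κ₃ * t + 2) ≤ (ε / 2) ^ 2 * (κ₂ * t) := by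
        have h6 : (16 * C ^ 2) / (κ₂ * (ε / 2) ^ 2 * κ₂) ≤ t := by
          have : 0 ≤ ((m₀ : ℝ) + 2 + (4 + 2 * δ) / δ + (8 * C ^ 2) / (κ₂ * (ε / 2) ^ 2)) / (κ₁ * (1 - κ₃)) := by
            have h13 : 0 < 1 - κ₃ := by linarith
            positivity
          linarith
        rw [div_le_iff₀ (by positivity)] at h6
        have h7 : 4 * C ^ 2 * κ₃ * t ≤ κ₂ * (ε / 2) ^ 2 / 2 * t := mul_le_mul_of_nonneg_right hκ₃3 ht0.le
        have h8 : t * (κ₂ * (ε / 2) ^ 2 * κ₂) ≤ t * (κ₂ * (ε / 2) ^ 2) := by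
          apply mul_le_mul_of_nonneg_left _ ht0.le
          have : 0 ≤ κ₂ * (ε / 2) ^ 2 := by positivity
          nlinarith
        nlinarith
      calc C ^ 2 * (((m' - m : ℕ) : ℝ) + 1) ≤ C ^ 2 * (κ₃ * t + 2) := mul_le_mul_of_nonneg_left hj (by positivity)
        _ ≤ (ε / 2) ^ 2 * (κ₂ * t) := h5
        _ ≤ _ := mul_le_mul_of_nonneg_left hrr (by positivity)
    have h5 := Real.sqrt_le_sqrt h4
    rw [Real.sqrt_mul (by positivity), Real.sqrt_mul (by positivity), Real.sqrt_sq hC0.le,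
      Real.sqrt_sq (by positivity)] at h5
    exact h5
  have h4 := abs_sub_le (Av k H t (Ph π G)) (Wm (Fm π G) m (t - m)) (Wm (Fm π G) m' (t - m'))
  rw [abs_sub_comm (Wm (Fm π G) m (t - m))] at h4
  linarith

end Pool.Agent.Q74.SF
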