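import Pool.Agent.Q74.SF.Asm

/-! # Project SF: small and large `H` -/

set_option autoImplicit false

namespace Pool.Agent.Q74.SF

open Finset
open Pool.Agent.Q74.KP
open Pool.Agent.Q74.AR (oc oc_per bE bE_succ bE_mono bE_add bE_mul)
open Pool.Agent.Q158.Pair (T)
open Pool.Agent.Q158.Col4 (cI)

variable {k : ℕ}

theorem avg_const {H : ℕ} (hH : 1 ≤ H) (c : ℝ) : (∑ _x : Fin k → Fin H, c) / (H : ℝ) ^ k = c := by
  have hH0 : (0 : ℝ) < (H : ℝ) ^ k := by
    have : (0 : ℝ) < H := by exact_mod_cast hH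
    positivity
  rw [sum_const, card_univ, Fintype.card_fun, Fintype.card_fin, Fintype.card_fin, nsmul_eq_mul]
  push_cast
  field_simp

theorem avg_mono {H : ℕ} {f g : (Fin k → Fin H) → ℝ} (h : ∀ x, f x ≤ g x) :
    (∑ x, f x) / (H : ℝ) ^ k ≤ (∑ x, g x) / (H : ℝ) ^ k :=
  div_le_div_of_nonneg_right (sum_le_sum fun x _ => h x) (by positivity)

/-- small `H` -/
theorem low (hF : S_Fix) (hC : S_Cont) (k : ℕ) {Λ ε : ℝ} (hΛ : 0 ≤ Λ) (hε : 0 < ε) :
    ∃ κ₁ : ℝ, 0 < κ₁ ∧ ∃ t₀ : ℕ, ∀ t : ℕ, t₀ ≤ t → ∀ H : ℕ, 1 ≤ H → cI * Real.log H ≤ κ₁ * t →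
      ∀ (π : Fin (k + 1) → Fin (k + 1)) (G : (Fin (k + 1) → ℤ) → ℝ), (∀ z, |G z| ≤ 1) →
      (∀ z w : Fin (k + 1) → ℤ, |G z - G w| ≤ Λ / √(t : ℝ) * ∑ i, |(z i : ℝ) - w i|) →
      ⌊cI * Real.log H⌋₊ ≤ t ∧
      |Av k H t (Ph π G) - Wm (Fm π G) ⌊cI * Real.log H⌋₊ (t - ⌊cI * Real.log H⌋₊)| ≤ ε := by
  obtain ⟨ρ, hρ, t₁, hfix⟩ := hF (k + 1) Λ (ε / 2) hΛ (by positivity)
  obtain ⟨C, hC0, hcont⟩ := Wm_cont hC k
  obtain ⟨κ₁, hκ, hκ1, hκ2, hκ3⟩ : ∃ κ₁ : ℝ, 0 < κ₁ ∧ κ₁ ≤ 1 / 2 ∧ κ₁ ≤ ρ * cI ∧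
      C ^ 2 * κ₁ ≤ (ε / 2) ^ 2 / 4 := by
    have hcI := cI_pos
    refine ⟨min (1 / 2) (min (ρ * cI) ((ε / 2) ^ 2 / 4 / C ^ 2)), by positivity, min_le_left _ _,
      (min_le_right _ _).trans (min_le_left _ _), ?_⟩
    have := (min_le_right (1 / 2) (min (ρ * cI) ((ε / 2) ^ 2 / 4 / C ^ 2))).trans (min_le_right _ _)
    rw [le_div_iff₀ (by positivity)] at this
    linarith
  obtain ⟨t₂, ht₂⟩ := exists_nat_ge (4 * C ^ 2 / (ε / 2) ^ 2)
  refine ⟨κ₁, hκ, max t₁ (t₂ + 1), fun t ht H hH hH1 π G hG hGL => ?_⟩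
  have ht1 : t₁ ≤ t := le_trans (le_max_left _ _) ht
  have ht2 : t₂ + 1 ≤ t := le_trans (le_max_right _ _) ht
  have ht0 : (0 : ℝ) < t := by
    have : 0 < t := by omega
    exact_mod_cast this
  have ht2r : (t₂ : ℝ) ≤ t := by exact_mod_cast (by omega : t₂ ≤ t)
  have hlog : 0 ≤ Real.log H := Real.log_nonneg (by exact_mod_cast hH)
  set m := ⌊cI * Real.log H⌋₊ with hm
  have hm1 : (m : ℝ) ≤ κ₁ * t := (Nat.floor_le (mul_nonneg cI_pos.le hlog)).trans hH1
  have hmt : m ≤ t := by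
    have : (m : ℝ) ≤ t := by nlinarith
    exact_mod_cast this
  refine ⟨hmt, ?_⟩
  -- the fixed points
  have hHexp : (H : ℝ) ≤ Real.exp (ρ * t) := by
    have hH0 : (0 : ℝ) < H := by exact_mod_cast hH
    rw [← Real.exp_log hH0]
    apply Real.exp_le_exp.2
    have h1 : cI * Real.log H ≤ cI * (ρ * t) := by
      calc cI * Real.log H ≤ κ₁ * t := hH1
        _ ≤ ρ * cI * t := mul_le_mul_of_nonneg_right hκ2 ht0.le
        _ = cI * (ρ * t) := by ring
    exact le_of_mul_le_mul_left h1 cI_pos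
  have h1 : ∀ h : Fin k → Fin H, |EE t (fun n => Ph π G (Vv (fun _ => 0) (hb h) t n)) - CG (Fm π G) t 0| ≤ ε / 2 := by
    intro h
    refine hfix t ht1 (fun _ => 0) (hb h) ⟨fun i j => ?_, fun i j _ => ?_⟩ π G hG hGL
    · rw [sub_self, zero_mul]
      positivity
    · rw [Nat.sub_self, pow_zero, one_mul, one_mul]
      refine le_trans ?_ hHexp
      have hi : (hn h i : ℝ) ≤ H := by exact_mod_cast (hn_lt hH h i).le
      have hj : (hn h j : ℝ) ≤ H := by exact_mod_cast (hn_lt hH h j).le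
      have hi0 : (0 : ℝ) ≤ hn h i := Nat.cast_nonneg _
      have hj0 : (0 : ℝ) ≤ hn h j := Nat.cast_nonneg _
      unfold hb
      push_cast
      rw [abs_le]
      constructor <;> linarith
  have h2 : |Av k H t (Ph π G) - CG (Fm π G) t 0| ≤ ε / 2 := by
    have := avg_sub_le hH h1
    rwa [avg_const hH] at this
  -- the first `m` steps
  have h3 := hcont π G hG 0 m (t - m)
  rw [Nat.zero_add, Nat.add_sub_cancel' hmt] at h3
  have e0 : Wm (Fm π G) 0 t = CG (Fm π G) t 0 := by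
    unfold Wm
    rw [pow_zero, act_one]
  rw [e0] at h3
  have h4 : C * √((m : ℝ) + 1) / √(((t - m : ℕ) : ℝ) + 1) ≤ ε / 2 := by
    rw [div_le_iff₀ (Real.sqrt_pos.2 (by positivity))]
    have h5 : C ^ 2 * ((m : ℝ) + 1) ≤ (ε / 2) ^ 2 * (((t - m : ℕ) : ℝ) + 1) := by
      rw [Nat.cast_sub hmt]
      have h6 : C ^ 2 * (m : ℝ) ≤ (ε / 2) ^ 2 / 4 * t := by
        calc C ^ 2 * (m : ℝ) ≤ C ^ 2 * (κ₁ * t) := mul_le_mul_of_nonneg_left hm1 (by positivity)
          _ = C ^ 2 * κ₁ * t := by ring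
          _ ≤ _ := mul_le_mul_of_nonneg_right hκ3 ht0.le
      have h7 : 4 * C ^ 2 ≤ t * (ε / 2) ^ 2 := by
        have := ht₂.trans ht2r
        rwa [div_le_iff₀ (by positivity)] at this
      have h8 : (m : ℝ) ≤ t / 2 := by nlinarith
      have h9 : 0 < (ε / 2) ^ 2 := by positivity
      nlinarith
    have h6 := Real.sqrt_le_sqrt h5
    rw [Real.sqrt_mul (by positivity), Real.sqrt_mul (by positivity), Real.sqrt_sq hC0.le,
      Real.sqrt_sq (by positivity)] at h6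
    exact h6
  have h5 := abs_sub_le (Av k H t (Ph π G)) (CG (Fm π G) t 0) (Wm (Fm π G) m (t - m))
  rw [abs_sub_comm (CG (Fm π G) t 0)] at h5
  linarith

/-! ## one walker, and Lipschitz functions -/

theorem CG_one (ψ : ℤ → ℝ) (t : ℕ) : ∀ c : ℤ,
    CG (fun y : Fin 1 → ℤ => ψ (y 0)) t (fun _ => c) = bE t (fun m => ψ (c + m)) := by
  induction t with
  | zero =>
    intro c
    show ψ c = ψ (c + ((0 : ℕ) : ℤ))
    rw [Nat.cast_zero, add_zero]
  | succ t ih =>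
    intro c
    have himg : (univ.image (fun _ : Fin 1 => c)) = {c} := by
      ext x
      simp
    rw [CG_succ, himg, card_singleton, pow_one, bE_succ]
    have hps : ({c} : Finset ℤ).powerset = {∅, {c}} := by
      ext s
      simp [Finset.subset_singleton_iff]
    rw [hps, sum_pair (by
      intro h
      have := congrArg Finset.card h
      simp at this)]
    have e1 : (fun i : Fin 1 => (fun _ : Fin 1 => c) i + if (fun _ : Fin 1 => c) i ∈ (∅ : Finset ℤ) then (1 : ℤ) else 0) =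
        fun _ => c := by
      funext i
      simp
    have e2 : (fun i : Fin 1 => (fun _ : Fin 1 => c) i + if (fun _ : Fin 1 => c) i ∈ ({c} : Finset ℤ) then (1 : ℤ) else 0) =
        fun _ => c + 1 := by
      funext i
      simp
    rw [e1, e2, ih, ih]
    congr 2
    apply congrArg
    funext m
    congr 1
    push_cast
    ring

theorem CG_coord (hCo : S_Comp) (i : Fin k) (t : ℕ) (ψ : ℤ → ℝ) (a : Fin k → ℤ) :
    CG (fun z => ψ (z i)) t a = bE t (fun m => ψ (a i + m)) := by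
  have h := hCo k 1 (fun _ => i) (fun y => ψ (y 0)) t a
  have e : (a ∘ fun _ : Fin 1 => i) = fun _ => a i := rfl
  rw [e, CG_one] at h
  exact h

theorem half_near (r : ℕ) : |(r : ℝ) / 2 - (r / 2 : ℕ)| ≤ 1 / 2 := by
  have h1 : (r : ℝ) = 2 * ((r / 2 : ℕ) : ℝ) + ((r % 2 : ℕ) : ℝ) := by
    exact_mod_cast (Nat.div_add_mod r 2).symm
  have h2 : ((r % 2 : ℕ) : ℝ) ≤ 1 := by
    have : r % 2 ≤ 1 := by omega
    exact_mod_cast this
  have h3 : (0 : ℝ) ≤ ((r % 2 : ℕ) : ℝ) := Nat.cast_nonneg _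
  rw [abs_le]
  constructor <;> linarith

theorem CG_dist (hCo : S_Comp) (r r' : ℕ) (h : |(r : ℝ) / 2 - r'| ≤ 1 / 2) (a : Fin k → ℤ) :
    CG (fun z => ∑ i, |(z i : ℝ) - (a i + r' : ℤ)|) r a ≤ k * √((r : ℝ) + 1) := by
  rw [CG_sum]
  refine (sum_le_card_nsmul _ _ (√((r : ℝ) + 1)) ?_).trans (by rw [card_univ, Fintype.card_fin, nsmul_eq_mul])
  intro i _
  refine le_trans (le_of_eq ?_) (bE_dist r r' h)
  rw [CG_coord hCo i r (fun y : ℤ => |(y : ℝ) - (a i + r' : ℤ)|)]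
  congr 1
  funext m
  push_cast
  congr 1
  ring

/-- a Lipschitz function of the coalescing walkers after `r` steps -/
theorem CG_near (hCo : S_Comp) {Φ : (Fin k → ℤ) → ℝ} {l : ℝ} (hl : 0 ≤ l)
    (hΦ : ∀ z w : Fin k → ℤ, |Φ z - Φ w| ≤ l * ∑ i, |(z i : ℝ) - w i|) (r : ℕ) (a : Fin k → ℤ) :
    |CG Φ r a - Φ (fun i => a i + (r / 2 : ℕ))| ≤ l * (k * √((r : ℝ) + 1)) := by
  set w : Fin k → ℤ := fun i => a i + (r / 2 : ℕ) with hw
  have e : CG Φ r a - Φ w = CG (fun z => Φ z - Φ w) r a := by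
    rw [CG_sub, CG_const]
  rw [e]
  have h1 : |CG (fun z => Φ z - Φ w) r a| ≤ CG (fun z => l * ∑ i, |(z i : ℝ) - w i|) r a := by
    rw [abs_le]
    constructor
    · have h2 := CG_mono (F := fun z => (-1) * (l * ∑ i, |(z i : ℝ) - w i|)) (G := fun z => Φ z - Φ w)
        (fun z => by have := (abs_le.1 (hΦ z w)).1; linarith) r a
      rw [CG_mul] at h2
      linarith
    · exact CG_mono (fun z => (abs_le.1 (hΦ z w)).2) r a
  refine h1.trans ?_
  rw [CG_mul]
  exact mul_le_mul_of_nonneg_left (CG_dist hCo r (r / 2) (half_near r) a) hl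

/-- a Lipschitz function of the free walkers after `r` steps -/
theorem act_near {Φ : (Fin k → ℤ) → ℝ} {l : ℝ} (hl : 0 ≤ l)
    (hΦ : ∀ z w : Fin k → ℤ, |Φ z - Φ w| ≤ l * ∑ i, |(z i : ℝ) - w i|) (r : ℕ) (a : Fin k → ℤ) :
    |act k (PP k ^ r) Φ a - Φ (fun i => a i + (r / 2 : ℕ))| ≤ l * (k * √((r : ℝ) + 1)) := by
  set w : Fin k → ℤ := fun i => a i + (r / 2 : ℕ) with hw
  have hconst : ∀ c : ℝ, act k (PP k ^ r) (fun _ => c) a = c := by
    intro c
    rcases Nat.eq_zero_or_pos k with hk | hk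
    · subst hk
      have h1 : ∀ (n : ℕ) (x : Fin 0 → ℤ), act 0 (PP 0 ^ n) (fun _ => c) x = c := by
        intro n
        induction n with
        | zero => intro x; rw [pow_zero, act_one]
        | succ n ih =>
          intro x
          rw [pow_succ, act_mul]
          have : act 0 (PP 0) (fun _ : Fin 0 → ℤ => c) = fun _ => c := by
            funext y
            rw [act_PP]
            simp
          rw [this]
          exact ih x
      exact h1 r a
    · have h1 := act_coord (⟨0, hk⟩ : Fin k) r (fun _ => c) a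
      rw [Pool.Agent.Q74.AR.bE_const] at h1
      exact h1
  have e : act k (PP k ^ r) Φ a - Φ w = act k (PP k ^ r) (fun z => Φ z - Φ w) a := by
    rw [act_sub', hconst]
  rw [e]
  have h1 : |act k (PP k ^ r) (fun z => Φ z - Φ w) a| ≤ act k (PP k ^ r) (fun z => l * ∑ i, |(z i : ℝ) - w i|) a := by
    rw [abs_le]
    constructor
    · have h2 := act_mono (F := fun z => (-1) * (l * ∑ i, |(z i : ℝ) - w i|)) (G := fun z => Φ z - Φ w) r
        (fun z => by have := (abs_le.1 (hΦ z w)).1; linarith) a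
      rw [act_scale] at h2
      linarith
    · exact act_mono r (fun z => (abs_le.1 (hΦ z w)).2) a
  refine h1.trans ?_
  rw [act_scale]
  exact mul_le_mul_of_nonneg_left (act_dist r (r / 2) (half_near r) a) hl

/-! ## periodicity and monotonicity in time -/

theorem EE_per {m : ℕ} {f : ℤ → ℝ} (h : Pe m f) (r : ℕ) : EE (m + r) f = EE m f := by
  induction r with
  | zero => rfl
  | succ r ih =>
    rw [← ih, ← Nat.add_assoc]
    unfold EE
    have e1 : ∑ i ∈ range (2 ^ (m + r + 1)), f i = ∑ i ∈ range (2 ^ (m + r)), f i + ∑ i ∈ range (2 ^ (m + r)), f i := by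
      rw [pow_succ, mul_two, sum_range_add]
      congr 1
      apply sum_congr rfl
      intro i _
      have h2 := Pe_le h (Nat.le_add_right m r) i 1
      rw [mul_one] at h2
      rw [← h2]
      congr 1
      push_cast
      ring
    rw [e1, pow_succ]
    field_simp
    ring

theorem T_add (t : ℕ) (x j : ℤ) : T^[t] (x + 2 ^ t * j) = T^[t] x + 3 ^ oc t x * j := by
  have h1 : ∀ (x : ℤ), (Pool.Agent.Q74.AR.Td 1)^[t] x = T^[t] x := by
    intro x
    have := Pool.Agent.Q74.AR.Td_iter (d := 1) (by norm_num) t x 0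
    simpa using this
  have h2 := Pool.Agent.Q74.AR.Td_iter (d := 1) (by norm_num) t x j
  rw [one_mul, one_mul, h1] at h2
  exact h2

theorem Vv_eq_iff_per (a : Fin k → ℕ) (b : Fin k → ℤ) (t : ℕ) (n j : ℤ) (i l : Fin k)
    (h : Vv a b t n i = Vv a b t n l) : Vv a b t (n + 2 ^ t * j) i = Vv a b t (n + 2 ^ t * j) l := by
  unfold Vv at *
  rw [Prod.mk.injEq] at h ⊢
  obtain ⟨h1, h2⟩ := h
  refine ⟨?_, ?_⟩
  · rw [Lv_per, h1]
  · have key : ∀ i : Fin k, T^[t] (yy a b i (n + 2 ^ t * j)) = T^[t] (yy a b i n) + 3 ^ (oc t (yy a b i n) + a i) * j := by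
      intro i
      rw [yy_shift]
      have e1 : (3 : ℤ) ^ a i * (2 ^ t * j) = 2 ^ t * (3 ^ a i * j) := by ring
      rw [e1, T_add, pow_add]
      ring
    rw [key, key, h2]
    have h3 : oc t (yy a b i n) + a i = oc t (yy a b l n) + a l := by
      unfold Lv at h1
      have : ((a i + oc t (yy a b i n) : ℕ) : ℤ) = ((a l + oc t (yy a b l n) : ℕ) : ℤ) := by
        push_cast
        exact h1
      have h4 : a i + oc t (yy a b i n) = a l + oc t (yy a b l n) := by exact_mod_cast this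
      omega
    rw [h3]

end Pool.Agent.Q74.SF
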