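import Pool.Agent.Q74.SF.Full
import Pool.Agent.Q74.AR.ArcFin

/-! # Project SF: from the structural form to intervals; free walkers; the law of two walkers -/

set_option autoImplicit false

namespace Pool.Agent.Q74.SF

open Finset
open Pool.Agent.Q74.KP
open Pool.Agent.Q74.AR (oc oc_per bE bE_succ bE_mono bE_add bE_mul Td ocd)
open Pool.Agent.Q158.Pair (T)
open Pool.Agent.Q158.Col4 (cI)

variable {k : ℕ}

/-- free walkers: expected value of `F` after `m` steps of independent walkers which start at `a` and stay or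
move one to the right with probability 1/2 each at every step -/
noncomputable def FR {k : ℕ} (F : (Fin k → ℤ) → ℝ) : ℕ → (Fin k → ℤ) → ℝ
  | 0 => F
  | m + 1 => fun a => (∑ A : Finset (Fin k), FR F m (fun i => a i + if i ∈ A then 1 else 0)) / 2 ^ k

theorem FR_act (F : (Fin k → ℤ) → ℝ) (m : ℕ) : ∀ a, FR F m a = act k (PP k ^ m) F a := by
  induction m with
  | zero => intro a; rw [pow_zero, act_one]; rfl
  | succ m ih =>
    intro a
    rw [pow_succ', act_mul, act_PP]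
    show (∑ A : Finset (Fin k), FR F m (fun i => a i + if i ∈ A then 1 else 0)) / 2 ^ k = _
    congr 1
    exact sum_congr rfl fun A _ => ih _

/-- THE THEOREM for `Td d`, in intervals and progressions -/
theorem flow (hF : S_Fix) (hM : S_Mark) (hB : S_Bad) (hP : S_Prod) (hC : S_Cont) (hI : S_CInj) (hCo : S_Comp)
    (hV : S_Conv) (k : ℕ) {Λ ε : ℝ} (hΛ : 0 ≤ Λ) (hε : 0 < ε) : ∃ t₀ K : ℕ, ∀ t : ℕ, t₀ ≤ t → ∀ H : ℕ, 1 ≤ H →
      ∀ d : ℤ, d % 2 = 1 → ∀ (u s : ℤ), u % 2 = 1 → ∀ (M : ℤ) (L : ℕ), 1 ≤ L → K * 2 ^ t ≤ L →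
      ∀ (π : Fin (k + 1) → Fin (k + 1)) (G : (Fin (k + 1) → ℤ) → ℝ), (∀ z, |G z| ≤ 1) →
      (∀ z w : Fin (k + 1) → ℤ, |G z - G w| ≤ Λ / √(t : ℝ) * ∑ i, |(z i : ℝ) - w i|) →
      |(∑ h : Fin k → Fin H, ∑ x ∈ Ico M (M + L), pat π (Vd d (fun _ => 0) (hb h) t (u * x + s)) *
          G (fun i => (ocd d t (Yd d (fun _ => 0) (hb h) i (u * x + s)) : ℤ))) / ((H : ℝ) ^ k * L) -
        FR (CG (fun z => pat π z * G z) (t - min t ⌊cI * Real.log H⌋₊)) (min t ⌊cI * Real.log H⌋₊) 0| ≤ ε := by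
  obtain ⟨t₀, h0⟩ := full hF hM hB hP hC hI hCo k hΛ (show 0 < ε / 2 by positivity)
  obtain ⟨K, hK⟩ := exists_nat_ge ((2 + ((k + 1 : ℕ) : ℝ) ^ 2) / (ε / 2))
  refine ⟨t₀, K, fun t ht H hH d hd u s hu M L hL1 hL π G hG hGL => ?_⟩
  have hLr : (0 : ℝ) < L := by exact_mod_cast hL1
  have h1 := h0 t ht H hH π G hG hGL
  -- each tuple of distances
  have h2 : ∀ h : Fin k → Fin H, |(∑ x ∈ Ico M (M + L), pat π (Vd d (fun _ => 0) (hb h) t (u * x + s)) *
      G (fun i => (ocd d t (Yd d (fun _ => 0) (hb h) i (u * x + s)) : ℤ))) / L -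
      EE t (fun n => Ph π G (Vv (fun _ => 0) (hb h) t n))| ≤ ε / 2 := by
    intro h
    have h3 := hV (k + 1) d hd u s hu M L t (fun _ => 0) (hb h) π G hG
    have e1 : (∑ x ∈ Ico M (M + L), pat π (Vd d (fun _ => 0) (hb h) t (u * x + s)) *
      G (fun i => (ocd d t (Yd d (fun _ => 0) (hb h) i (u * x + s)) : ℤ))) / L -
      EE t (fun n => Ph π G (Vv (fun _ => 0) (hb h) t n)) =
      (∑ x ∈ Ico M (M + L), pat π (Vd d (fun _ => 0) (hb h) t (u * x + s)) *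
      G (fun i => (ocd d t (Yd d (fun _ => 0) (hb h) i (u * x + s)) : ℤ)) -
      EE t (fun n => Ph π G (Vv (fun _ => 0) (hb h) t n)) * L) / L := by
      field_simp
    rw [e1, abs_div, abs_of_pos hLr, div_le_iff₀ hLr]
    have e2 : ∀ x : ℤ, (fun i => (((0 : ℕ) : ℤ)) + (ocd d t (Yd d (fun _ => 0) (hb h) i x) : ℤ)) =
        fun i => (ocd d t (Yd d (fun _ => 0) (hb h) i x) : ℤ) := by
      intro x
      funext i
      simp
    simp only [e2] at h3
    refine h3.trans ?_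
    have h4 : (2 + ((k + 1 : ℕ) : ℝ) ^ 2) ≤ ε / 2 * K := by
      rw [div_le_iff₀ (by positivity)] at hK
      linarith
    have h5 : (K : ℝ) * 2 ^ t ≤ L := by exact_mod_cast hL
    calc (2 + ((k + 1 : ℕ) : ℝ) ^ 2) * 2 ^ t ≤ (ε / 2 * K) * 2 ^ t := mul_le_mul_of_nonneg_right h4 (by positivity)
      _ = ε / 2 * (K * 2 ^ t) := by ring
      _ ≤ ε / 2 * L := mul_le_mul_of_nonneg_left h5 (by positivity)
  have h3 := avg_sub_le hH h2
  have e3 : (∑ h : Fin k → Fin H, ∑ x ∈ Ico M (M + L), pat π (Vd d (fun _ => 0) (hb h) t (u * x + s)) *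
          G (fun i => (ocd d t (Yd d (fun _ => 0) (hb h) i (u * x + s)) : ℤ))) / ((H : ℝ) ^ k * L) =
      (∑ h : Fin k → Fin H, (∑ x ∈ Ico M (M + L), pat π (Vd d (fun _ => 0) (hb h) t (u * x + s)) *
          G (fun i => (ocd d t (Yd d (fun _ => 0) (hb h) i (u * x + s)) : ℤ))) / L) / (H : ℝ) ^ k := by
    rw [← sum_div, div_div, mul_comm (L : ℝ)]
  rw [e3, FR_act]
  have h4 := abs_sub_le ((∑ h : Fin k → Fin H, (∑ x ∈ Ico M (M + L), pat π (Vd d (fun _ => 0) (hb h) t (u * x + s)) *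
          G (fun i => (ocd d t (Yd d (fun _ => 0) (hb h) i (u * x + s)) : ℤ))) / L) / (H : ℝ) ^ k)
    (Av k H t (Ph π G)) (Wm (Fm π G) (min t ⌊cI * Real.log H⌋₊) (t - min t ⌊cI * Real.log H⌋₊))
  unfold Av Wm at *
  have e4 : (Fm π G) = fun z => pat π z * G z := rfl
  rw [e4] at h4 h1
  linarith

end Pool.Agent.Q74.SF
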