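import Pool.Agent.Q74.SF.High

/-! # Project SF: the theorem for all `H` -/

set_option autoImplicit false

namespace Pool.Agent.Q74.SF

open Finset
open Pool.Agent.Q74.KP
open Pool.Agent.Q74.AR (oc oc_per bE bE_succ bE_mono bE_add bE_mul)
open Pool.Agent.Q158.Pair (T)
open Pool.Agent.Q158.Col4 (cI)

variable {k : ℕ}

theorem Av_close {H t : ℕ} {Φ Ψ Θ : (Fin (k + 1) → ℤ × ℤ) → ℝ} (h : ∀ V, |Φ V - Ψ V| ≤ Θ V) :
    |Av k H t Φ - Av k H t Ψ| ≤ Av k H t Θ := by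
  unfold Av
  rw [← sub_div, ← sum_sub_distrib, abs_div, abs_of_nonneg (by positivity : (0 : ℝ) ≤ (H : ℝ) ^ k)]
  refine div_le_div_of_nonneg_right ((abs_sum_le_sum_abs _ _).trans (sum_le_sum fun x _ => ?_)) (by positivity)
  rw [← EE_sub]
  exact EE_abs_le t (fun n => h _)

theorem Av_mul {H t : ℕ} (c : ℝ) (Φ : (Fin (k + 1) → ℤ × ℤ) → ℝ) :
    Av k H t (fun V => c * Φ V) = c * Av k H t Φ := by
  unfold Av
  rw [mul_div_assoc', mul_sum]
  congr 1
  apply sum_congr rfl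
  intro h _
  rw [← EE_mul]

/-- large `H` -/
theorem high (hF : S_Fix) (hM : S_Mark) (hB : S_Bad) (hP : S_Prod) (hC : S_Cont) (hI : S_CInj) (hCo : S_Comp) (k : ℕ)
    {Λ ε : ℝ} (hΛ : 0 ≤ Λ) (hε : 0 < ε) :
    ∃ κ : ℝ, 0 < κ ∧ κ < 1 ∧ ∃ t₀ : ℕ, ∀ t : ℕ, t₀ ≤ t → ∀ H : ℕ, 1 ≤ H → (1 - κ) * t ≤ cI * Real.log H →
      ∀ (π : Fin (k + 1) → Fin (k + 1)) (G : (Fin (k + 1) → ℤ) → ℝ), (∀ z, |G z| ≤ 1) →
      (∀ z w : Fin (k + 1) → ℤ, |G z - G w| ≤ Λ / √(t : ℝ) * ∑ i, |(z i : ℝ) - w i|) →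
      |Av k H t (Ph π G) - Wm (Fm π G) (min t ⌊cI * Real.log H⌋₊) (t - min t ⌊cI * Real.log H⌋₊)| ≤ ε := by
  classical
  obtain ⟨κ₀, hκ₀, hreal⟩ := far_real hF hM hB hP hC hI k (show 0 < ε / 8 by positivity)
  obtain ⟨κf, hκf, m₀, hmodel⟩ := far_model hI (k + 1) (show 0 < ε / 8 by positivity)
  set A : ℝ := 2 * Λ * ((k : ℝ) + 1) with hA
  have hA0 : 0 ≤ A := by positivity
  obtain ⟨κ, hκ, hκ1, hκ2, hκ3, hκ4⟩ : ∃ κ : ℝ, 0 < κ ∧ κ ≤ 1 / 4 ∧ κ ≤ κ₀ ∧ κ ≤ κf / 4 ∧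
      4 * (A ^ 2 + 1) * κ ≤ (ε / 8) ^ 2 := by
    refine ⟨min (min (1 / 4) κ₀) (min (κf / 4) ((ε / 8) ^ 2 / (4 * (A ^ 2 + 1)))), by positivity,
      (min_le_left _ _).trans (min_le_left _ _), (min_le_left _ _).trans (min_le_right _ _),
      (min_le_right _ _).trans (min_le_left _ _), ?_⟩
    have := (min_le_right (min (1 / 4) κ₀) (min (κf / 4) ((ε / 8) ^ 2 / (4 * (A ^ 2 + 1))))).trans (min_le_right _ _)
    rw [le_div_iff₀ (by positivity)] at this
    linarith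
  obtain ⟨t₁, hreal1⟩ := hreal κ hκ hκ2
  obtain ⟨H₀, hH₀, hpl⟩ := places hP k (η := κ * cI) (mul_pos hκ cI_pos) (show 0 < ε / 8 by positivity)
  obtain ⟨t₂, ht₂⟩ := exists_nat_gt (2 * (cI * Real.log H₀) + 2 * ((m₀ : ℝ) + 2) + 1 / κ + 8 / κf)
  refine ⟨κ, hκ, by linarith, t₁ + t₂ + 1, fun t ht H hH hX π G hG hGL => ?_⟩
  have htr : (t₂ : ℝ) ≤ t := by exact_mod_cast (by omega : t₂ ≤ t)
  have ht0 : (0 : ℝ) < t := by
    have : 0 < t := by omega
    exact_mod_cast this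
  set X := cI * Real.log H with hXd
  have hcI := cI_pos
  have hlogH₀ : 0 ≤ Real.log H₀ := Real.log_nonneg (by exact_mod_cast (by omega : 1 ≤ H₀))
  have q1 : 0 ≤ cI * Real.log H₀ := by positivity
  have q2 : (0 : ℝ) ≤ m₀ := Nat.cast_nonneg _
  have q3 : 0 < 1 / κ := by positivity
  have q4 : 0 < 8 / κf := by positivity
  have hX1 : (t : ℝ) / 2 ≤ X := by nlinarith
  have hX0 : 0 < X := by linarith
  have hHH : H₀ ≤ H := by
    by_contra hc
    push Not at hc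
    have h1 : Real.log H ≤ Real.log H₀ := Real.log_le_log (by exact_mod_cast hH) (by exact_mod_cast hc.le)
    have h2 : X ≤ cI * Real.log H₀ := mul_le_mul_of_nonneg_left h1 hcI.le
    linarith
  set m := min t ⌊X⌋₊ with hm
  have hmt : m ≤ t := min_le_left _ _
  have hmX : (1 - κ) * t - 1 ≤ (m : ℝ) := by
    rw [hm, Nat.cast_min]
    apply le_min
    · nlinarith
    · have := Nat.lt_floor_add_one X
      linarith
  have hm0 : m₀ ≤ m := by
    have : (m₀ : ℝ) ≤ m := by nlinarith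
    exact_mod_cast this
  have hr : ((t - m : ℕ) : ℝ) ≤ κ * t + 1 := by
    rw [Nat.cast_sub hmt]
    linarith
  have hκt : 1 ≤ κ * t := by
    have : 1 / κ ≤ t := by linarith
    rw [div_le_iff₀ hκ] at this
    linarith
  have hrm : ((t - m : ℕ) : ℝ) ≤ κf * m := by
    have h1 : κf * ((1 - κ) * t - 1) ≤ κf * m := mul_le_mul_of_nonneg_left hmX hκf.le
    have h2 : 8 ≤ κf * t := by
      have : 8 / κf ≤ t := by linarith
      rw [div_le_iff₀ hκf] at this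
      linarith
    have h3 : (t : ℝ) ≥ 4 := by
      have : (4 : ℝ) ≤ 1 / κ := by
        rw [le_div_iff₀ hκ]
        linarith
      linarith
    have h4 : κf * ((t : ℝ) / 2) ≤ κf * ((1 - κ) * t - 1) := by
      apply mul_le_mul_of_nonneg_left _ hκf.le
      nlinarith
    have h5 : κ * t ≤ κf / 4 * t := mul_le_mul_of_nonneg_right hκ3 ht0.le
    nlinarith
  set P : ℝ := if Function.Injective π then 1 else 0 with hPd
  have hP1 : |P| ≤ 1 := by
    rw [hPd]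
    split_ifs <;> simp
  set l : ℝ := Λ / √(t : ℝ) with hl
  have hl0 : 0 ≤ l := by positivity
  have hst : 0 < √(t : ℝ) := Real.sqrt_pos.2 ht0
  -- the error of the places
  have herr : ∀ r : ℕ, (r : ℝ) ≤ 2 * κ * t + 1 → 2 * (l * (((k : ℝ) + 1) * √((r : ℝ) + 1))) ≤ ε / 8 := by
    intro r hr
    have e1 : 2 * (l * (((k : ℝ) + 1) * √((r : ℝ) + 1))) = A * √((r : ℝ) + 1) / √(t : ℝ) := by
      rw [hl, hA]
      ring
    rw [e1, div_le_iff₀ hst]
    have h1 : A ^ 2 * ((r : ℝ) + 1) ≤ (ε / 8) ^ 2 * t := by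
      have h2 : (r : ℝ) + 1 ≤ 4 * κ * t := by linarith
      calc A ^ 2 * ((r : ℝ) + 1) ≤ (A ^ 2 + 1) * (4 * κ * t) :=
            mul_le_mul (by linarith) h2 (by positivity) (by positivity)
        _ = 4 * (A ^ 2 + 1) * κ * t := by ring
        _ ≤ (ε / 8) ^ 2 * t := mul_le_mul_of_nonneg_right hκ4 ht0.le
    have h2 := Real.sqrt_le_sqrt h1
    rw [Real.sqrt_mul (by positivity), Real.sqrt_mul (by positivity), Real.sqrt_sq hA0, Real.sqrt_sq (by positivity)] at h2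
    exact h2
  -- (A)
  have hAA : |Av k H t (Ph π G) - P * Av k H t (fun V => G (fun i => (V i).1))| ≤ ε / 8 := by
    rw [← Av_mul]
    refine (Av_close (Θ := fun V => 1 - pat id V) (fun V => ?_)).trans (hreal1 t (by omega) H hH hX)
    unfold Ph
    rw [← sub_mul, abs_mul]
    calc |pat π V - P| * |G (fun i => (V i).1)| ≤ (1 - pat id V) * 1 :=
          mul_le_mul (pat_near π V) (hG _) (abs_nonneg _) (by have := pat_le_one id V; linarith)
      _ = 1 - pat id V := mul_one _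
  -- (B)
  have hBB : |Av k H t (fun V => G (fun i => (V i).1)) - act (k + 1) (PP (k + 1) ^ t) G 0| ≤ ε / 8 + ε / 8 := by
    set S := ⌊(1 - 2 * κ) * t⌋₊ with hS
    have h12 : 0 ≤ 1 - 2 * κ := by linarith
    have hS1 : (S : ℝ) ≤ (1 - 2 * κ) * t := Nat.floor_le (by positivity)
    have hS2 : (1 - 2 * κ) * t < S + 1 := Nat.lt_floor_add_one _
    have hSt : S ≤ t := by
      have : (S : ℝ) ≤ t := by nlinarith
      exact_mod_cast this
    have hSX : (S : ℝ) ≤ (cI - κ * cI) * Real.log H := by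
      have e1 : (cI - κ * cI) * Real.log H = (1 - κ) * X := by rw [hXd]; ring
      rw [e1]
      have h1 : (1 - 2 * κ) * (t : ℝ) ≤ (1 - κ) * ((1 - κ) * t) := by
        have : 0 ≤ κ ^ 2 * t := by positivity
        nlinarith
      have h2 : (1 - κ) * ((1 - κ) * (t : ℝ)) ≤ (1 - κ) * X := mul_le_mul_of_nonneg_left hX (by linarith)
      linarith
    have h1 := hpl H hHH S (t - S) hSX G l hl0 hG hGL
    rw [Nat.add_sub_cancel' hSt] at h1
    have h2 := herr (t - S) (by rw [Nat.cast_sub hSt]; linarith)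
    linarith
  -- (C)
  have hCC : |Wm (Fm π G) m (t - m) - P * act (k + 1) (PP (k + 1) ^ m) (CG G (t - m)) 0| ≤ ε / 8 := by
    refine le_trans ?_ (hmodel m (t - m) hm0 hrm 0)
    unfold Wm
    have e1 : P * act (k + 1) (PP (k + 1) ^ m) (CG G (t - m)) 0 =
        act (k + 1) (PP (k + 1) ^ m) (fun z => P * CG G (t - m) z) 0 := by
      rw [act_scale]
    rw [e1, ← act_sub']
    have h1 : ∀ z, |CG (Fm π G) (t - m) z - P * CG G (t - m) z| ≤ CG (fun z => 1 - pat id z) (t - m) z := by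
      intro z
      rw [← CG_mul, ← CG_sub]
      have h2 : ∀ y : Fin (k + 1) → ℤ, |Fm π G y - P * G y| ≤ 1 - pat id y := by
        intro y
        unfold Fm
        rw [← sub_mul, abs_mul]
        calc |pat π y - P| * |G y| ≤ (1 - pat id y) * 1 :=
              mul_le_mul (pat_near π y) (hG _) (abs_nonneg _) (by have := pat_le_one id y; linarith)
          _ = 1 - pat id y := mul_one _
      rw [abs_le]
      constructor
      · have h3 := CG_mono (F := fun y => (-1) * (1 - pat id y)) (G := fun y => Fm π G y - P * G y)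
          (fun y => by have := (abs_le.1 (h2 y)).1; linarith) (t - m) z
        rw [CG_mul] at h3
        linarith
      · exact CG_mono (fun y => (abs_le.1 (h2 y)).2) (t - m) z
    rw [abs_le]
    constructor
    · have h3 := act_mono (F := fun z => (-1) * CG (fun z => 1 - pat id z) (t - m) z)
        (G := fun z => CG (Fm π G) (t - m) z - P * CG G (t - m) z) m
        (fun z => by have := (abs_le.1 (h1 z)).1; linarith) (0 : Fin (k + 1) → ℤ)
      rw [act_scale] at h3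
      have e2 : (fun z => CG (fun z => 1 - pat id z) (t - m) z) = CG (fun z : Fin (k + 1) → ℤ => 1 - pat id z) (t - m) := rfl
      linarith
    · exact act_mono m (fun z => (abs_le.1 (h1 z)).2) 0
  -- (D)
  have hDD : |act (k + 1) (PP (k + 1) ^ m) (CG G (t - m)) 0 - act (k + 1) (PP (k + 1) ^ t) G 0| ≤ ε / 8 := by
    have e1 : act (k + 1) (PP (k + 1) ^ t) G 0 =
        act (k + 1) (PP (k + 1) ^ m) (act (k + 1) (PP (k + 1) ^ (t - m)) G) 0 := by
      rw [← act_mul, ← pow_add, Nat.add_sub_cancel' hmt]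
    rw [e1, ← act_sub']
    refine le_trans (act_abs m (K := 2 * (l * (((k : ℝ) + 1) * √(((t - m : ℕ) : ℝ) + 1)))) (fun z => ?_) 0)
      (herr (t - m) (by nlinarith))
    have h1 := CG_near hCo hl0 hGL (t - m) z
    have h2 := act_near hl0 hGL (t - m) z
    push_cast at h1 h2
    have h3 := abs_sub_le (CG G (t - m) z) (G (fun i => z i + ((t - m) / 2 : ℕ))) (act (k + 1) (PP (k + 1) ^ (t - m)) G z)
    rw [abs_sub_comm (G (fun i => z i + ((t - m) / 2 : ℕ)))] at h3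
    push_cast at h3
    linarith
  -- sum up
  have hPB : |P * Av k H t (fun V => G (fun i => (V i).1)) - P * act (k + 1) (PP (k + 1) ^ t) G 0| ≤ ε / 8 + ε / 8 := by
    rw [← mul_sub, abs_mul]
    calc |P| * _ ≤ 1 * (ε / 8 + ε / 8) := mul_le_mul hP1 hBB (abs_nonneg _) zero_le_one
      _ = _ := one_mul _
  have hPD : |P * act (k + 1) (PP (k + 1) ^ m) (CG G (t - m)) 0 - P * act (k + 1) (PP (k + 1) ^ t) G 0| ≤ ε / 8 := by
    rw [← mul_sub, abs_mul]
    calc |P| * _ ≤ 1 * (ε / 8) := mul_le_mul hP1 hDD (abs_nonneg _) zero_le_one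
      _ = _ := one_mul _
  rw [abs_le] at *
  constructor <;> linarith [hAA.1, hAA.2, hPB.1, hPB.2, hCC.1, hCC.2, hPD.1, hPD.2]

/-- THE THEOREM in structural form: `n` and `k` random points of `[n, n + H)` -/
theorem full (hF : S_Fix) (hM : S_Mark) (hB : S_Bad) (hP : S_Prod) (hC : S_Cont) (hI : S_CInj) (hCo : S_Comp) (k : ℕ)
    {Λ ε : ℝ} (hΛ : 0 ≤ Λ) (hε : 0 < ε) : ∃ t₀ : ℕ, ∀ t : ℕ, t₀ ≤ t → ∀ H : ℕ, 1 ≤ H →
      ∀ (π : Fin (k + 1) → Fin (k + 1)) (G : (Fin (k + 1) → ℤ) → ℝ), (∀ z, |G z| ≤ 1) →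
      (∀ z w : Fin (k + 1) → ℤ, |G z - G w| ≤ Λ / √(t : ℝ) * ∑ i, |(z i : ℝ) - w i|) →
      |Av k H t (Ph π G) - Wm (Fm π G) (min t ⌊cI * Real.log H⌋₊) (t - min t ⌊cI * Real.log H⌋₊)| ≤ ε := by
  obtain ⟨κ₁, hκ₁, t₁, h1⟩ := low hF hC k hΛ hε
  obtain ⟨κ₂, hκ₂, hκ₂', t₂, h2⟩ := high hF hM hB hP hC hI hCo k hΛ hε
  obtain ⟨t₃, h3⟩ := mid hF hM hB hP hC k hΛ hκ₁ hκ₂ hκ₂' hε
  refine ⟨t₁ + t₂ + t₃, fun t ht H hH π G hG hGL => ?_⟩
  rcases le_total ((1 - κ₂) * t) (cI * Real.log H) with hc | hc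
  · exact h2 t (by omega) H hH hc π G hG hGL
  · have hmt : ⌊cI * Real.log H⌋₊ ≤ t := by
      have hlog : 0 ≤ Real.log H := Real.log_nonneg (by exact_mod_cast hH)
      have h4 : ((⌊cI * Real.log H⌋₊ : ℕ) : ℝ) ≤ cI * Real.log H := Nat.floor_le (mul_nonneg cI_pos.le hlog)
      have h5 : ((⌊cI * Real.log H⌋₊ : ℕ) : ℝ) ≤ t := by
        have : (0 : ℝ) ≤ t := Nat.cast_nonneg _
        nlinarith
      exact_mod_cast h5
    rw [min_eq_right hmt]
    rcases le_total (κ₁ * t) (cI * Real.log H) with hc1 | hc1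
    · exact h3 t (by omega) H hH hc1 hc π G hG hGL
    · exact (h1 t (by omega) H hH hc1 π G hG hGL).2

end Pool.Agent.Q74.SF
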