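import Pool.Agent.Q74.SF.Edge

/-! # Project SF: large `H`, and the theorem for all `H` -/

set_option autoImplicit false

namespace Pool.Agent.Q74.SF

open Finset
open Pool.Agent.Q74.KP
open Pool.Agent.Q74.AR (oc oc_per bE bE_succ bE_mono bE_add bE_mul)
open Pool.Agent.Q158.Pair (T)
open Pool.Agent.Q158.Col4 (cI)

variable {k : ℕ}

theorem Vv_eq_iff (a : Fin k → ℕ) (b : Fin k → ℤ) (t : ℕ) (n j : ℤ) (i l : Fin k) :
    Vv a b t (n + 2 ^ t * j) i = Vv a b t (n + 2 ^ t * j) l ↔ Vv a b t n i = Vv a b t n l := by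
  constructor
  · intro h
    have := Vv_eq_iff_per a b t (n + 2 ^ t * j) (-j) i l h
    have e : n + 2 ^ t * j + 2 ^ t * (-j) = n := by ring
    rwa [e] at this
  · exact Vv_eq_iff_per a b t n j i l

theorem pat_per (π : Fin k → Fin k) (a : Fin k → ℕ) (b : Fin k → ℤ) (t : ℕ) : Pe t (fun n => pat π (Vv a b t n)) := by
  intro n j
  show pat π (Vv a b t (n + 2 ^ t * j)) = pat π (Vv a b t n)
  unfold pat
  by_cases h : ∀ i l, Vv a b t n i = Vv a b t n l ↔ π i = π l
  · rw [if_pos h, if_pos]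
    intro i l
    rw [Vv_eq_iff]
    exact h i l
  · rw [if_neg h, if_neg]
    intro h'
    apply h
    intro i l
    rw [← h' i l, Vv_eq_iff]

theorem Vv_later (a : Fin k → ℕ) (b : Fin k → ℤ) (S r : ℕ) (n : ℤ) {i l : Fin k} (h : Vv a b S n i = Vv a b S n l) :
    Vv a b (S + r) n i = Vv a b (S + r) n l := by
  unfold Vv at *
  rw [Prod.mk.injEq] at h ⊢
  obtain ⟨h1, h2⟩ := h
  refine ⟨?_, ?_⟩
  · rw [Lv_inc, Lv_inc, h1, h2]
  · rw [Nat.add_comm S r, Function.iterate_add_apply, Function.iterate_add_apply, h2]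

theorem pat_id_iff {α : Type} (v : Fin k → α) : pat id v = 1 ↔ Function.Injective v := by
  unfold pat
  constructor
  · intro h
    split_ifs at h with h1
    · intro i j hij
      exact (h1 i j).1 hij
    · norm_num at h
  · intro h
    rw [if_pos]
    intro i j
    exact h.eq_iff

theorem pat_id_zero {α : Type} {v : Fin k → α} (h : ¬ Function.Injective v) : pat id v = 0 := by
  unfold pat
  rw [if_neg]
  intro h1
  exact h fun i j hij => (h1 i j).1 hij

open Classical in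
theorem pat_id_eq {α : Type} (v : Fin k → α) : pat id v = if Function.Injective v then 1 else 0 := by
  split_ifs with h
  · exact (pat_id_iff v).2 h
  · exact pat_id_zero h

theorem pat_later (a : Fin k → ℕ) (b : Fin k → ℤ) (S r : ℕ) (n : ℤ) :
    pat id (Vv a b (S + r) n) ≤ pat id (Vv a b S n) := by
  by_cases h : Function.Injective (Vv a b (S + r) n)
  · have h2 : Function.Injective (Vv a b S n) := fun i j hij => h (Vv_later a b S r n hij)
    rw [(pat_id_iff _).2 h, (pat_id_iff _).2 h2]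
  · rw [pat_id_zero h]
    exact pat_nonneg _ _

open Classical in
/-- a pattern is either that of distinct values or excludes it -/
theorem pat_near {α : Type} (π : Fin k → Fin k) (v : Fin k → α) :
    |pat π v - (if Function.Injective π then 1 else 0)| ≤ 1 - pat id v := by
  by_cases hv : Function.Injective v
  · rw [(pat_id_iff v).2 hv, sub_self]
    apply le_of_eq
    rw [abs_eq_zero, sub_eq_zero]
    by_cases hπ : Function.Injective π
    · rw [if_pos hπ]
      unfold pat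
      rw [if_pos]
      intro i j
      rw [hv.eq_iff, hπ.eq_iff]
    · rw [if_neg hπ]
      unfold pat
      rw [if_neg]
      intro h
      apply hπ
      intro i j hij
      exact hv ((h i j).2 hij)
  · rw [pat_id_zero hv, sub_zero]
    have h1 := pat_nonneg π v
    have h2 := pat_le_one π v
    rw [abs_le]
    constructor <;> split_ifs <;> linarith

/-! ## large `H`: the trajectories have not met -/

/-- the walkers which are free for a long time do not meet in a short time -/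
theorem far_model (hI : S_CInj) (k : ℕ) {ε : ℝ} (hε : 0 < ε) : ∃ κ : ℝ, 0 < κ ∧ ∃ m₀ : ℕ, ∀ m r : ℕ, m₀ ≤ m →
    (r : ℝ) ≤ κ * m → ∀ a : Fin k → ℤ, act k (PP k ^ m) (CG (fun z => 1 - pat id z) r) a ≤ ε := by
  obtain ⟨κ, hκ, m₀, h⟩ := pair_far (show 0 < ε / ((k : ℝ) ^ 2 + 1) by positivity)
  refine ⟨κ, hκ, m₀, fun m r hm hr a => ?_⟩
  have h1 : ∀ z : Fin k → ℤ, CG (fun z => 1 - pat id z) r z ≤
      ∑ p ∈ (univ : Finset (Fin k × Fin k)).filter (fun p => p.1 < p.2), (1 - pq r (z p.2 - z p.1)) := by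
    intro z
    refine le_trans (le_of_eq ?_) (NG_ge r z)
    rw [CG_sub, CG_const, ← hI]
    congr 1
    apply congrArg (fun f => CG f r z)
    funext y
    by_cases hy : Function.Injective y
    · rw [if_pos hy]
      exact (pat_id_iff y).2 hy
    · rw [if_neg hy]
      exact pat_id_zero hy
  refine (act_mono m h1 a).trans ?_
  have e1 : (fun z : Fin k → ℤ => ∑ p ∈ (univ : Finset (Fin k × Fin k)).filter (fun p => p.1 < p.2),
      (1 - pq r (z p.2 - z p.1))) = ∑ p ∈ (univ : Finset (Fin k × Fin k)).filter (fun p => p.1 < p.2),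
      (fun z : Fin k → ℤ => 1 - pq r (z p.2 - z p.1)) := by
    funext z
    rw [Finset.sum_apply]
  rw [e1, map_sum, Finset.sum_apply]
  have h2 : ∀ p ∈ (univ : Finset (Fin k × Fin k)).filter (fun p => p.1 < p.2),
      act k (PP k ^ m) (fun z : Fin k → ℤ => 1 - pq r (z p.2 - z p.1)) a ≤ ε / ((k : ℝ) ^ 2 + 1) := by
    intro p hp
    exact h m r hm hr k p.1 p.2 (ne_of_lt (mem_filter.1 hp).2) a
  refine (sum_le_card_nsmul _ _ _ h2).trans ?_
  rw [nsmul_eq_mul]
  have h3 : ((((univ : Finset (Fin k × Fin k)).filter (fun p => p.1 < p.2)).card : ℕ) : ℝ) ≤ (k : ℝ) ^ 2 := by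
    have : ((univ : Finset (Fin k × Fin k)).filter (fun p => p.1 < p.2)).card ≤ k ^ 2 := by
      refine (card_filter_le _ _).trans (le_of_eq ?_)
      rw [card_univ, Fintype.card_prod, Fintype.card_fin]
      ring
    exact_mod_cast this
  calc _ ≤ (k : ℝ) ^ 2 * (ε / ((k : ℝ) ^ 2 + 1)) := mul_le_mul_of_nonneg_right h3 (by positivity)
    _ = ε * ((k : ℝ) ^ 2 / ((k : ℝ) ^ 2 + 1)) := by ring
    _ ≤ ε * 1 := by
      apply mul_le_mul_of_nonneg_left _ hε.le
      rw [div_le_one (by positivity)]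
      linarith
    _ = ε := mul_one ε

theorem Ph_one (V : Fin k → ℤ × ℤ) : Ph id (fun _ => 1) V = pat id V := by
  unfold Ph
  rw [mul_one]

theorem act_const (t : ℕ) (c : ℝ) (a : Fin k → ℤ) : act k (PP k ^ t) (fun _ => c) a = c := by
  have h := act_near (Φ := fun _ : Fin k → ℤ => c) le_rfl (fun z w => by rw [sub_self, abs_zero, zero_mul]) t a
  rw [zero_mul] at h
  have := abs_nonpos_iff.1 h
  linarith

theorem CG_nonneg {F : (Fin k → ℤ) → ℝ} (h : ∀ z, 0 ≤ F z) (t : ℕ) (a : Fin k → ℤ) : 0 ≤ CG F t a := by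
  have := CG_mono (F := fun _ => 0) h t a
  rwa [CG_const] at this

/-- large `H`: no coincidences in the family -/
theorem far_real (hF : S_Fix) (hM : S_Mark) (hB : S_Bad) (hP : S_Prod) (hC : S_Cont) (hI : S_CInj) (k : ℕ) {ε : ℝ}
    (hε : 0 < ε) : ∃ κ₀ : ℝ, 0 < κ₀ ∧ ∀ κ : ℝ, 0 < κ → κ ≤ κ₀ → ∃ t₀ : ℕ, ∀ t : ℕ, t₀ ≤ t → ∀ H : ℕ, 1 ≤ H →
      (1 - κ) * t ≤ cI * Real.log H → Av k H t (fun V => 1 - pat id V) ≤ ε := by
  obtain ⟨κf, hκf, m₀, hfar⟩ := far_model hI (k + 1) (show 0 < ε / 2 by positivity)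
  refine ⟨min (1 / 4) (κf / 4), by positivity, fun κ hκ hκ0 => ?_⟩
  have hκ1 : κ ≤ 1 / 4 := hκ0.trans (min_le_left _ _)
  have hκ2 : κ ≤ κf / 4 := hκ0.trans (min_le_right _ _)
  obtain ⟨t₁, hmid⟩ := mid hF hM hB hP hC k (Λ := 0) (κ₁ := 1 / 4) (κ₂ := κ) le_rfl (by norm_num) hκ (by linarith)
    (show 0 < ε / 2 by positivity)
  obtain ⟨t₂, ht₂⟩ := exists_nat_ge (2 * ((m₀ : ℝ) + 2) + 16 / κf)
  refine ⟨t₁ + t₂ + 1, fun t ht H hH hX => ?_⟩
  set X := cI * Real.log H with hXd
  have htr : (t₂ : ℝ) ≤ t := by exact_mod_cast (by omega : t₂ ≤ t)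
  have hX1 : (t : ℝ) / 2 ≤ X := by
    have : (0 : ℝ) ≤ t := Nat.cast_nonneg _
    nlinarith
  have hκf0 : 0 < 16 / κf := by positivity
  have hX2 : (m₀ : ℝ) + 2 ≤ X := by linarith
  have hX3 : 8 / κf ≤ X := by
    have h1 : 16 / κf = 2 * (8 / κf) := by ring
    have : (0 : ℝ) ≤ m₀ := Nat.cast_nonneg _
    linarith
  have hm₀r : (0 : ℝ) ≤ m₀ := Nat.cast_nonneg _
  have hX0 : 0 < X := by linarith
  -- the later time
  set t' := ⌈X / (1 - κ)⌉₊ with ht'
  have h1κ : 0 < 1 - κ := by linarith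
  have ht'1 : X / (1 - κ) ≤ t' := Nat.le_ceil _
  have ht'2 : (t' : ℝ) < X / (1 - κ) + 1 := Nat.ceil_lt_add_one (by positivity)
  have htt' : t ≤ t' := by
    have h1 : (t : ℝ) ≤ X / (1 - κ) := by
      rw [le_div_iff₀ h1κ]
      linarith
    exact_mod_cast h1.trans ht'1
  have hX4 : X ≤ (1 - κ) * t' := by
    rw [div_le_iff₀ h1κ] at ht'1
    linarith
  have hXX : X / (1 - κ) ≤ (1 + 2 * κ) * X := by
    rw [div_le_iff₀ h1κ]
    have : 0 ≤ κ * (1 - 2 * κ) * X := by
      have : 0 ≤ 1 - 2 * κ := by linarith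
      positivity
    nlinarith
  have hX5 : 1 / 4 * (t' : ℝ) ≤ X := by nlinarith
  have hmid1 := hmid t' (by omega) H hH hX5 hX4 id (fun _ => 1) (fun _ => by rw [abs_one]) (fun z w => by
    rw [sub_self, abs_zero]
    exact mul_nonneg (by positivity) (sum_nonneg fun i _ => abs_nonneg _))
  -- the model
  set m := ⌊X⌋₊ with hm
  have hm1 : (m : ℝ) ≤ X := Nat.floor_le hX0.le
  have hm2 : X < m + 1 := Nat.lt_floor_add_one _
  have hmt : m ≤ t' := by
    have : (m : ℝ) ≤ t' := by nlinarith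
    exact_mod_cast this
  have hm0 : m₀ ≤ m := by
    have : (m₀ : ℝ) < m + 1 := by linarith
    have : m₀ < m + 1 := by exact_mod_cast this
    omega
  have hr : ((t' - m : ℕ) : ℝ) ≤ κf * m := by
    rw [Nat.cast_sub hmt]
    rw [div_le_iff₀ hκf] at hX3
    nlinarith
  have hmod := hfar m (t' - m) hm0 hr 0
  have e1 : Wm (k := k) (Fm id (fun _ => 1)) m (t' - m) = 1 - act (k + 1) (PP (k + 1) ^ m) (CG (fun z => 1 - pat id z) (t' - m)) 0 := by
    unfold Wm
    have e2 : CG (fun z : Fin (k + 1) → ℤ => 1 - pat id z) (t' - m) = fun z => 1 - CG (Fm id (fun _ => 1)) (t' - m) z := by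
      funext z
      rw [CG_sub, CG_const]
      congr 1
      apply congrArg (fun f => CG f (t' - m) z)
      funext y
      unfold Fm
      rw [mul_one]
    rw [e2, act_sub', act_const]
    ring
  -- compare the times
  have h2 : Av k H t (fun V => 1 - pat id V) ≤ 1 - Av k H t' (Ph id (fun _ => 1)) := by
    have e3 : 1 - Av k H t' (Ph id (fun _ => 1)) = Av k H t' (fun V => 1 - pat id V) := by
      have h5 : ∀ h : Fin k → Fin H, EE t' (fun n => 1 - pat id (Vv (fun _ => 0) (hb h) t' n)) =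
          1 - EE t' (fun n => Ph id (fun _ => 1) (Vv (fun _ => 0) (hb h) t' n)) := by
        intro h
        rw [EE_sub, EE_const]
        simp only [Ph_one]
      unfold Av
      simp only [h5]
      rw [sum_sub_distrib, sub_div, avg_const hH]
    rw [e3]
    unfold Av
    apply avg_mono
    intro h
    have hper : Pe t (fun n => 1 - pat id (Vv (fun _ => 0) (hb h) t n)) := by
      intro n j
      have := pat_per id (fun _ => 0) (hb h) t n j
      simp only at this ⊢
      rw [this]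
    have h6 := EE_per hper (t' - t)
    rw [Nat.add_sub_cancel' htt'] at h6
    rw [← h6]
    apply EE_mono
    intro n
    have h7 := pat_later (fun _ => 0) (hb h) t (t' - t) n
    rw [Nat.add_sub_cancel' htt'] at h7
    linarith
  have h3 := (abs_le.1 hmid1).1
  rw [e1] at h3
  linarith

/-! ## large `H`: the places -/

/-- the places after `S + r` steps, `S` within the free time, `r` small against `t` -/
theorem places (hP : S_Prod) (k : ℕ) {η ε : ℝ} (hη : 0 < η) (hε : 0 < ε) : ∃ H₀ : ℕ, 2 ≤ H₀ ∧ ∀ H : ℕ, H₀ ≤ H → ∀ S r : ℕ,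
    (S : ℝ) ≤ (cI - η) * Real.log H → ∀ (G : (Fin (k + 1) → ℤ) → ℝ) (l : ℝ), 0 ≤ l → (∀ z, |G z| ≤ 1) →
    (∀ z w : Fin (k + 1) → ℤ, |G z - G w| ≤ l * ∑ i, |(z i : ℝ) - w i|) →
    |Av k H (S + r) (fun V => G (fun i => (V i).1)) - act (k + 1) (PP (k + 1) ^ (S + r)) G 0| ≤
      ε + 2 * (l * (((k : ℝ) + 1) * √((r : ℝ) + 1))) := by
  obtain ⟨H₀, hH₀, hprod⟩ := hP k η ε hη hε
  refine ⟨H₀, hH₀, fun H hH S r hS G l hl hG hGL => ?_⟩
  have hH1 : 1 ≤ H := by omega
  set r' := r / 2 with hr'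
  -- the shifted function
  set G' : (Fin (k + 1) → ℤ) → ℝ := fun z => G (fun i => z i + (r' : ℤ)) with hG'
  have h1 : ∀ h : Fin k → Fin H, |EE (S + r) (fun n => G (fun i => (Vv (fun _ => 0) (hb h) (S + r) n i).1)) -
      EE S (fun x => G' (Fin.cons (oc S x : ℤ) (fun i => (oc S (x + (h i : ℕ)) : ℤ))))| ≤
        l * (((k : ℝ) + 1) * √((r : ℝ) + 1)) := by
    intro h
    have e1 : ∀ x : ℤ, G' (Fin.cons (oc S x : ℤ) (fun i => (oc S (x + (h i : ℕ)) : ℤ))) =
        G (fun i => Lv (fun _ => 0) (hb h) S x i + (r' : ℤ)) := by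
      intro x
      rw [← cons_oc h S x, hG']
      show G _ = G _
      congr 1
      funext i
      unfold Lv
      rw [yy_zero]
      simp [hb]
    have hper : Pe S (fun x => G (fun i => Lv (fun _ => 0) (hb h) S x i + (r' : ℤ))) := by
      intro n j
      simp only [Lv_per]
    simp only [e1]
    rw [← EE_per hper r, ← EE_sub]
    refine (EE_abs_le (S + r) (fun n => hGL _ _)).trans ?_
    rw [EE_mul]
    apply mul_le_mul_of_nonneg_left _ hl
    have h2 := EE_dist (fun _ => 0) (hb h) S r r' (half_near r)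
    push_cast at h2
    exact_mod_cast h2
  have h2 := avg_sub_le hH1 h1
  have h3 := hprod H hH S hS G' (fun z => hG _)
  have h4 : |act (k + 1) (PP (k + 1) ^ S) G' 0 - act (k + 1) (PP (k + 1) ^ (S + r)) G 0| ≤
      l * (((k : ℝ) + 1) * √((r : ℝ) + 1)) := by
    rw [pow_add, act_mul, ← act_sub']
    apply act_abs
    intro z
    rw [abs_sub_comm]
    have := act_near hl hGL r z
    push_cast at this
    exact this
  unfold Av
  have h5 := abs_sub_le ((∑ h : Fin k → Fin H, EE (S + r) (fun n => G (fun i => (Vv (fun _ => 0) (hb h) (S + r) n i).1))) /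
    (H : ℝ) ^ k) ((∑ h : Fin k → Fin H, EE S (fun x => G' (Fin.cons (oc S x : ℤ) (fun i => (oc S (x + (h i : ℕ)) : ℤ))))) /
      (H : ℝ) ^ k) (act (k + 1) (PP (k + 1) ^ (S + r)) G 0)
  have h6 := abs_sub_le ((∑ h : Fin k → Fin H, EE S (fun x => G' (Fin.cons (oc S x : ℤ) (fun i => (oc S (x + (h i : ℕ)) : ℤ))))) /
      (H : ℝ) ^ k) (act (k + 1) (PP (k + 1) ^ S) G' 0) (act (k + 1) (PP (k + 1) ^ (S + r)) G 0)
  linarith

end Pool.Agent.Q74.SF
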